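import Pool.Agent.Helper6K9.E3.Stm
import Pool.Agent.Helper6K9.E3.SyB
import Pool.Agent.Helper6K9.ES.Ops
import Pool.Agent.Helper6K9.ES.Cmp

set_option autoImplicit false

/-!
# [CMP] functions on a curve are symbols
-/

namespace Pool.Agent.Helper6K9.E3

open Set Filter Topology
open scoped ContDiff
open Pool.Agent.Helper6K9.ES (Q E Per Sm dX dT av an res bmp Small Sol S_OPS)
open Pool.Agent.Helper6K9.ES.CmpL (per_bd fderiv_split)

namespace CmpL

variable {m : ℕ}

theorem hasDerivAt_curve {Y : ℝ → Q m} (hY : Crv Y) {t : ℝ} (ht : 0 < t) :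
    HasDerivAt (fun t => ((Y t, t) : E m)) ((fun i => deriv (fun s => Y s i) t), 1) t := by
  have h1 : HasDerivAt Y (fun i => deriv (fun s => Y s i) t) t := by
    rw [hasDerivAt_pi]
    intro i
    exact (((hY i).1 t ht).differentiableAt (Ioi_mem_nhds ht)).hasDerivAt
  exact h1.prodMk (hasDerivAt_id t)

theorem hasDerivAt_comp {Y : ℝ → Q m} (hY : Crv Y) {F : E m → ℝ} (hF : Sm F) {t : ℝ}
    (ht : 0 < t) : HasDerivAt (fun t => F (Y t, t))
      ((∑ i, dX i F (Y t, t) * deriv (fun s => Y s i) t) + dT F (Y t, t)) t := by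
  have hd : DifferentiableAt ℝ F (Y t, t) :=
    (hF.1.differentiable (by simp)).differentiableAt
  have h := HasFDerivAt.comp_hasDerivAt (f := fun t => ((Y t, t) : E m)) t hd.hasFDerivAt
    (hasDerivAt_curve hY ht)
  rw [fderiv_split, mul_one] at h
  exact h

theorem sy_comp (hops : S_OPS) {Y : ℝ → Q m} (hY : Crv Y) : ∀ (J : ℕ) (F : E m → ℝ), Sm F →
    Sy J 0 (fun t => F (Y t, t)) := by
  have key : ∀ F : E m → ℝ, Sm F → ∃ C : ℝ, ∀ t : ℝ, 1 ≤ t → |F (Y t, t)| ≤ C * t ^ (0 : ℝ) := by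
    intro F hF
    obtain ⟨C, _, hC⟩ := per_bd hF.1.continuous hF.2
    exact ⟨C, fun t _ => by rw [Real.rpow_zero, mul_one]; exact hC _⟩
  intro J
  induction J with
  | zero => exact fun F hF => key F hF
  | succ J ih =>
    intro F hF
    obtain ⟨h1, h2, -⟩ := hops m F hF
    refine sy_succ_of_deriv (key F hF) (fun t ht => hasDerivAt_comp hY hF ht) ?_
    refine sy_add J (sy_sum J _ fun i _ => ?_) (sy_mono J (by norm_num) (ih _ h2))
    exact sy_mul J (ih _ (h1 i)) ((hY i).2 J)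

end CmpL

theorem cmp : S_CMP := fun _ _ _ hY hF =>
  ⟨fun J => CmpL.sy_comp ES.ops hY J _ hF, fun _ ht => CmpL.hasDerivAt_comp hY hF ht⟩

end Pool.Agent.Helper6K9.E3
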