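import Pool.Agent.Helper6K9.E3.Stm
import Pool.Agent.Helper6K9.E3.SyB
import Pool.Agent.Helper6K9.ES.Tub

set_option autoImplicit false

/-!
# Escaping orbits, [TUB]: bounds for the tube potential
-/

namespace Pool.Agent.Helper6K9.E3

open Set Filter Topology
open scoped ContDiff
open Pool.Agent.Helper6K9.ES (Q E Per Sm dX dT av an res bmp Small Sol)

namespace TubL

open Pool.Agent.Helper6K9.ES.TubL (U isOpen_U uniq_U Wt Ph mem_U norm1 norm2 time_Wt rpow_Wt phase
  ph_of_Wt bmp_contDiff bmp_supp bmp_compact bounded_iter sin_bd cos_bd)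

variable {m : ℕ}

lemma sy_Wt {h : ℝ → ℝ} {a : ℝ} (H : SyA a h) : Wt (m := m) (1 / 5) a (fun p => h p.2) := by
  obtain ⟨C0, hC0, b0⟩ := H.bd
  obtain ⟨C1, hC1, b1⟩ := H.deriv.bd
  obtain ⟨C2, hC2, b2⟩ := H.deriv2.bd
  have hle : ∀ {C e t : ℝ}, C ≤ C0 + C1 + C2 → 1 ≤ t → C * t ^ e ≤ (C0 + C1 + C2) * t ^ e :=
    fun hC ht => mul_le_mul_of_nonneg_right hC (by positivity)
  refine time_Wt (C := C0 + C1 + C2) (h1 := deriv h) (h2 := deriv (deriv h)) (by positivity)
    (fun t ht => (H.diffAt ht).hasDerivAt) (fun t ht => (H.deriv.diffAt ht).hasDerivAt)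
    (fun t ht => (H.deriv2.diffAt ht).continuousAt.continuousWithinAt)
    (fun t ht => (b0 t ht).trans (hle (by linarith) ht))
    (fun t ht => (b1 t ht).trans (hle (by linarith) ht)) (fun t ht => ?_)
  have e : a + 1 / 5 * 2 = a + 2 / 5 := by ring
  rw [e]
  exact (b2 t ht).trans (hle (by linarith) ht)

/-! ### the phases of the curve -/

section curve

variable {X : ℝ → Q m} (hX : ∀ i, SyA (-2 / 5) fun t => X t i - th m t i)

include hX

lemma X_deriv (i : Fin (m + 1)) {t : ℝ} (ht : 0 < t) : HasDerivAt (fun t => X t i)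
    (th1 i t + deriv (fun t => X t i - th m t i) t) t := by
  have h1 := (hasDerivAt_th0 i ht).add ((hX i).diffAt ht).hasDerivAt
  refine h1.congr_of_eventuallyEq (Eventually.of_forall fun s => ?_)
  show X s i = th0 i s + (X s i - th m s i)
  unfold th
  ring

lemma X_deriv2 (i : Fin (m + 1)) {t : ℝ} (ht : 0 < t) :
    HasDerivAt (fun t => th1 i t + deriv (fun t => X t i - th m t i) t)
    (deriv (th1 i) t + deriv (deriv fun t => X t i - th m t i) t) t :=
  ((syA_th1 i).diffAt ht).hasDerivAt.add ((hX i).deriv.diffAt ht).hasDerivAt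

lemma X_cont (i : Fin (m + 1)) : ContinuousOn
    (fun t => deriv (th1 i) t + deriv (deriv fun t => X t i - th m t i) t) (Ioi 0) := fun t ht =>
  (((syA_th1 i).deriv.diffAt ht).continuousAt.add
    ((hX i).deriv2.diffAt ht).continuousAt).continuousWithinAt

lemma ph_gen {i : Fin (m + 1)} {b : ℝ} (hb : 0 ≤ b) (h1 : SyA b (th1 i))
    (h2 : SyA (b * 2) (deriv (th1 i))) : Ph (m := m) b (fun p => p.1 i - X p.2 i) := by
  obtain ⟨C1, hC1, c1⟩ := (h1.add ((hX i).deriv.mono (by linarith))).bd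
  obtain ⟨C2, hC2, c2⟩ := (h2.add ((hX i).deriv2.mono (by linarith))).bd
  refine phase (C := C1 + C2) hb (by positivity) i (h := fun t => X t i)
    (fun t ht => X_deriv hX i ht) (fun t ht => X_deriv2 hX i ht) (X_cont hX i)
    (fun t ht => (c1 t ht).trans ?_) (fun t ht => (c2 t ht).trans ?_)
  · exact mul_le_mul_of_nonneg_right (by linarith) (by positivity)
  · exact mul_le_mul_of_nonneg_right (by linarith) (by positivity)

lemma ph_zero : Ph (m := m) (1 / 5) (fun p => p.1 0 - X p.2 0) :=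
  ph_gen hX (by norm_num) (syA_th1 _) ((syA_th1 _).deriv.mono (by norm_num))

lemma ph_succ (i : Fin m) : Ph (m := m) 0 (fun p => p.1 i.succ - X p.2 i.succ) := by
  have h := syA_th1_succ (i : ℕ)
  have e : ((i.succ : Fin (m + 1)) : ℕ) = (i : ℕ) + 1 := Fin.val_succ i
  refine ph_gen hX le_rfl ?_ ?_
  · rw [e]
    exact h.mono (by norm_num)
  · rw [e]
    exact h.deriv.mono (by norm_num)

end curve

section dir

/-! All that is used for one direction: `b = 1/5`, `e = 7/20` in the fast direction and `b = 0`,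
`e = 11/20` in the slow directions. -/

variable {X : ℝ → Q m} {i : Fin (m + 1)} {b e : ℝ} (H : Ph (m := m) b (fun p => p.1 i - X p.2 i))
  (hb : 0 ≤ b) (he : 0 ≤ e) (hbe : e + b = 11 / 20)

include H hb he hbe

/-- the argument of the cut-off -/
lemma ph_phi : Ph (m := m) (11 / 20)
    (fun p => p.2 ^ e * Real.sin (Real.pi * (p.1 i - X p.2 i))) := by
  have hs : Wt (m := m) b 0 (fun p => Real.sin (Real.pi * (p.1 i - X p.2 i))) :=
    (H.const_mul Real.pi).comp Real.sin Real.contDiff_sin 1 sin_bd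
  have h := ((rpow_Wt (m := m) e).mono hb le_rfl).mul hs
  have h2 := ph_of_Wt (by linarith) h
  have e2 : e + 0 + b = 11 / 20 := by rw [add_zero, hbe]
  rwa [e2] at h2

lemma cos_dir : Wt (m := m) (11 / 20) 0 (fun p => Real.cos (Real.pi * (p.1 i - X p.2 i))) :=
  ((H.const_mul Real.pi).comp Real.cos Real.contDiff_cos 1 cos_bd).mono (by linarith) le_rfl

lemma bmp_phi : Wt (m := m) (11 / 20) 0
    (fun p => bmp (p.2 ^ e * Real.sin (Real.pi * (p.1 i - X p.2 i)))) := by
  obtain ⟨M, hM⟩ := bounded_iter bmp_contDiff bmp_compact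
  exact (ph_phi H hb he hbe).comp bmp bmp_contDiff M hM

lemma ybmp_phi : Wt (m := m) (11 / 20) 0
    (fun p => (p.2 ^ e * Real.sin (Real.pi * (p.1 i - X p.2 i))) *
      bmp (p.2 ^ e * Real.sin (Real.pi * (p.1 i - X p.2 i)))) := by
  have hg : ContDiff ℝ 2 (fun y : ℝ => y * bmp y) := contDiff_id.mul bmp_contDiff
  have hc : HasCompactSupport (fun y : ℝ => y * bmp y) := bmp_compact.mul_left
  obtain ⟨M, hM⟩ := bounded_iter hg hc
  exact (ph_phi H hb he hbe).comp (fun y : ℝ => y * bmp y) hg M hM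

/-- the product of the force term with the cut-off of its direction -/
lemma term_dir {r : ℝ → ℝ} (hr : SyA (-4 / 5) r) : Wt (m := m) (11 / 20) (-4 / 5 - e)
    (fun p => bmp (p.2 ^ e * Real.sin (Real.pi * (p.1 i - X p.2 i))) *
      (r p.2 * (Real.sin (2 * Real.pi * (p.1 i - X p.2 i)) / (2 * Real.pi)))) := by
  have hb' : (0 : ℝ) ≤ 11 / 20 := by norm_num
  have h3 := ((sy_Wt (m := m) hr).mono
      (by norm_num : (1 / 5 : ℝ) ≤ 11 / 20) le_rfl).mul
      (((cos_dir H hb he hbe).const_mul hb' (1 / Real.pi)).mul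
      (((rpow_Wt (m := m) (-e)).mono hb' le_rfl).mul
        (ybmp_phi H hb he hbe)))
  refine (h3.mono le_rfl (by linarith)).congr fun p hp => ?_
  have hp0 : 0 < p.2 := hp
  simp only
  have e1 : (2 * Real.pi * (p.1 i - X p.2 i)) = 2 * (Real.pi * (p.1 i - X p.2 i)) := by ring
  have e2 : p.2 ^ (-e) * p.2 ^ e = 1 := by
    rw [← Real.rpow_add hp0]
    simp
  have hpi : Real.pi ≠ 0 := Real.pi_ne_zero
  rw [e1, Real.sin_two_mul]
  have e3 : p.2 ^ (-e) * (p.2 ^ e * Real.sin (Real.pi * (p.1 i - X p.2 i)) *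
        bmp (p.2 ^ e * Real.sin (Real.pi * (p.1 i - X p.2 i)))) =
        Real.sin (Real.pi * (p.1 i - X p.2 i)) *
        bmp (p.2 ^ e * Real.sin (Real.pi * (p.1 i - X p.2 i))) := by
    rw [← mul_assoc, ← mul_assoc, e2, one_mul]
  rw [e3]
  field_simp

end dir

theorem tub_Wt (X : ℝ → Q m) (R : Fin (m + 1) → ℝ → ℝ)
    (hX : ∀ i, SyA (-2 / 5) fun t => X t i - th m t i) (hR : ∀ i, SyA (-4 / 5) (R i)) :
    Wt (11 / 20) (-23 / 20) (tub X R) := by
  classical
  have hb : (0 : ℝ) ≤ 11 / 20 := by norm_num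
  have k0 : (7 / 20 + 1 / 5 : ℝ) = 11 / 20 := by norm_num
  have k1 : (11 / 20 + 0 : ℝ) = 11 / 20 := by norm_num
  have hP : ∀ s : Finset (Fin m), Wt (m := m) (11 / 20) 0 (fun p => ∏ i ∈ s,
      bmp (p.2 ^ (11 / 20 : ℝ) * Real.sin (Real.pi * (p.1 i.succ - X p.2 i.succ)))) :=
    fun s => Wt.prod hb _ _ fun i _ => bmp_phi (ph_succ hX i) le_rfl (by norm_num) k1
  have hF : Wt (m := m) (11 / 20) 0 (fun p =>
      bmp (p.2 ^ (7 / 20 : ℝ) * Real.sin (Real.pi * (p.1 0 - X p.2 0)))) :=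
    bmp_phi (ph_zero hX) (by norm_num) (by norm_num) k0
  -- the fast direction
  have h0 := (hP Finset.univ).mul (term_dir (ph_zero hX) (by norm_num) (by norm_num) k0 (hR 0))
  -- the slow directions
  have h2 : ∀ i : Fin m, _ := fun i => (hF.mul (hP (Finset.univ.erase i))).mul
    (term_dir (ph_succ hX i) le_rfl (by norm_num) k1 (hR i.succ))
  refine ((h0.mono le_rfl (by norm_num)).add (Wt.sum Finset.univ _ fun i _ =>
    (h2 i).mono le_rfl (by norm_num))).congr fun p _ => ?_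
  simp only
  unfold tub bpr
  rw [Fin.sum_univ_succ, mul_add, Finset.mul_sum]
  congr 1
  · ring
  · refine Finset.sum_congr rfl fun i _ => ?_
    rw [← Finset.mul_prod_erase Finset.univ (fun j : Fin m =>
      bmp (p.2 ^ (11 / 20 : ℝ) * Real.sin (Real.pi * (p.1 j.succ - X p.2 j.succ))))
      (Finset.mem_univ i)]
    ring

end TubL

open TubL
open Pool.Agent.Helper6K9.ES.TubL (U mem_U norm1 norm2)

theorem tub_bd : S_TUB := by
  intro m X R hX hR
  obtain ⟨h1, C, hC, h2⟩ := tub_Wt X R hX hR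
  refine ⟨h1, C, fun p hp => ?_⟩
  have hpU : p ∈ U m := mem_U hp
  have e : ∀ j : ℕ, j ≤ 2 → C * p.2 ^ (-23 / 20 + 11 / 20 * j : ℝ) ≤ C * p.2 ^ (-1 / 20 : ℝ) := by
    intro j hj
    refine mul_le_mul_of_nonneg_left (Real.rpow_le_rpow_of_exponent_le hp ?_) hC
    have : (j : ℝ) ≤ 2 := by exact_mod_cast hj
    linarith
  refine ⟨?_, ?_, ?_⟩
  · have h3 := (h2 p hp 0 (by omega)).trans (e 0 (by omega))
    rwa [norm_iteratedFDerivWithin_zero] at h3
  · have h3 := (h2 p hp 1 (by omega)).trans (e 1 (by omega))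
    rwa [norm1 hpU] at h3
  · have h3 := (h2 p hp 2 le_rfl).trans (e 2 le_rfl)
    rwa [norm2 hpU] at h3

end Pool.Agent.Helper6K9.E3
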