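import Pool.Agent.Helper6K9.E3.Ct

set_option autoImplicit false

/-!
# The theorem in adapted coordinates, with an explicit constant
-/

namespace Pool.Agent.Helper6K9.E3

open Set Filter Topology
open scoped ContDiff
open Pool.Agent.Helper6K9.ES (Q E Per Sm dX dT av an res bmp Small Sol D2 D2.add d2_congr bmp_neg
  dX_of_indep cut cut_bound cut_contDiff jet_mul)

variable {m : ℕ}

/-- the theorem in adapted coordinates, with an explicit constant -/
def S_CT2 : Prop := ∀ (m : ℕ), 2 ≤ m → ∀ (A : Matrix (Fin (m + 1)) (Fin (m + 1)) ℝ)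
  (h : E m → ℝ) (ε : ℝ), 0 < ε → A.PosDef → Nice h →
  ∃ (g : E m → ℝ) (γ : ℝ → Q m), ContDiff ℝ 2 g ∧ Per g ∧ Small g ε ∧
    Sol A (fun p => h p + g p) γ univ ∧
    ∀ᶠ t : ℝ in atTop, 3 / 4 * t ^ (1 / 5 : ℝ) ≤ deriv (fun s => γ s 0) t

theorem ct2 (hD : S_DIS) (hA : S_APX) : S_CT2 := by
  intro m hm A h ε hε hpos hN
  have hh : Sm h := hN.1
  have hsym : A.IsSymm := by
    have := hpos.isHermitian.eq
    rwa [Matrix.conjTranspose_eq_transpose_of_trivial] at this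
  have hdet : IsUnit A.det := hpos.det_pos.ne'.isUnit
  obtain ⟨X, G, hGs, hX, hX2, hR⟩ := hA m A A⁻¹ h hsym (Matrix.mul_nonsing_inv A hdet) hN
  set R : Fin (m + 1) → ℝ → ℝ := res A h X with hRd
  obtain ⟨T₁, hT₁, hdis⟩ := hD m hm X G hGs hX hX2
  obtain ⟨hcd, C, hC⟩ := tub_bd m X R hX hR
  obtain ⟨c, hc1, hcut⟩ := cut_bound
  have hC0 : 0 ≤ C := by
    have := (hC ((0 : Q m), 1) le_rfl).1
    rw [Real.one_rpow, mul_one] at this
    exact (abs_nonneg _).trans this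
  obtain ⟨K, hK⟩ : ∃ K, K = 4 * c * C := ⟨_, rfl⟩
  have hK0 : 0 ≤ K := by rw [hK]; positivity
  -- the time at which the tubes begin
  obtain ⟨T, hTT, hTε⟩ : ∃ T, T₁ ≤ T ∧ K * T ^ (-1 / 20 : ℝ) ≤ ε := by
    have h1 : Tendsto (fun t : ℝ => K * t ^ (-(1 / 20) : ℝ)) atTop (𝓝 (K * 0)) :=
      (tendsto_rpow_neg_atTop (by norm_num)).const_mul _
    rw [mul_zero] at h1
    have h2 : ∀ᶠ t : ℝ in atTop, K * t ^ (-(1 / 20) : ℝ) < ε := h1.eventually (gt_mem_nhds hε)
    obtain ⟨T, h3, h4⟩ := (h2.and (eventually_ge_atTop T₁)).exists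
    refine ⟨T, h4, ?_⟩
    rw [neg_div]
    exact h3.le
  have hT1 : 1 ≤ T := hT₁.trans hTT
  obtain ⟨Gf, hGf⟩ : ∃ Gf : E m → ℝ, Gf = fun p => cut T p * tub X R p := ⟨_, rfl⟩
  -- before the time `T`
  have hG0 : ∀ p : E m, p.2 < T → Gf =ᶠ[𝓝 p] 0 := by
    intro p hp
    have h1 : ∀ᶠ q : E m in 𝓝 p, q.2 < T :=
      continuous_snd.continuousAt.eventually (gt_mem_nhds hp)
    filter_upwards [h1] with q hq
    rw [hGf]
    simp only [cut, Pi.zero_apply]
    rw [Real.smoothTransition.zero_of_nonpos (by linarith), zero_mul]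
  have hcdt : ∀ p : E m, 0 < p.2 → ContDiffAt ℝ 2 (tub X R) p := fun p hp =>
    (hcd p hp).contDiffAt ((isOpen_lt continuous_const continuous_snd).mem_nhds hp)
  have hGcd : ContDiff ℝ 2 Gf := by
    rw [contDiff_iff_contDiffAt]
    intro p
    rcases lt_or_ge p.2 T with hp | hp
    · exact (contDiffAt_const (c := (0 : ℝ))).congr_of_eventuallyEq (hG0 p hp)
    · rw [hGf]
      exact (cut_contDiff T).contDiffAt.mul (hcdt p (by linarith))
  have hjet : ∀ p : E m, 1 ≤ p.2 → |Gf p| ≤ K * p.2 ^ (-1 / 20 : ℝ) ∧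
      ‖fderiv ℝ Gf p‖ ≤ K * p.2 ^ (-1 / 20 : ℝ) ∧
      ‖fderiv ℝ (fderiv ℝ Gf) p‖ ≤ K * p.2 ^ (-1 / 20 : ℝ) := by
    intro p hp
    obtain ⟨a0, a1, a2⟩ := hcut m T p
    obtain ⟨b0, b1, b2⟩ := hC p hp
    obtain ⟨j1, j2⟩ := jet_mul (cut_contDiff T).contDiffAt (hcdt p (by linarith))
    obtain ⟨B, hB⟩ : ∃ B, B = C * p.2 ^ (-1 / 20 : ℝ) := ⟨_, rfl⟩
    have hB0 : 0 ≤ B := by
      rw [hB]
      exact mul_nonneg hC0 (Real.rpow_nonneg (by linarith) _)
    have hKB : K * p.2 ^ (-1 / 20 : ℝ) = 4 * (c * B) := by rw [hK, hB]; ring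
    rw [← hB] at b0 b1 b2
    rw [hKB]
    have hc0 : 0 ≤ c := by linarith
    have m0 : |cut T p| * |tub X R p| ≤ c * B := mul_le_mul a0 b0 (abs_nonneg _) hc0
    have m1 : |cut T p| * ‖fderiv ℝ (tub X R) p‖ ≤ c * B := mul_le_mul a0 b1 (norm_nonneg _) hc0
    have m2 : |tub X R p| * ‖fderiv ℝ (cut T) p‖ ≤ B * c := mul_le_mul b0 a1 (norm_nonneg _) hB0
    have m3 : |cut T p| * ‖fderiv ℝ (fderiv ℝ (tub X R)) p‖ ≤ c * B :=
      mul_le_mul a0 b2 (ContinuousLinearMap.opNorm_nonneg _) hc0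
    have m4 : ‖fderiv ℝ (cut T) p‖ * ‖fderiv ℝ (tub X R) p‖ ≤ c * B :=
      mul_le_mul a1 b1 (norm_nonneg _) hc0
    have m5 : |tub X R p| * ‖fderiv ℝ (fderiv ℝ (cut T)) p‖ ≤ B * c :=
      mul_le_mul b0 a2 (ContinuousLinearMap.opNorm_nonneg _) hB0
    have hcB : 0 ≤ c * B := mul_nonneg hc0 hB0
    rw [hGf]
    refine ⟨?_, ?_, ?_⟩
    · rw [abs_mul]
      linarith
    · exact j1.trans (by linarith)
    · exact j2.trans (by linarith)
  obtain ⟨η, hη⟩ : ∃ η : ℝ → ℝ, η = fun t => K * (max t T) ^ (-1 / 20 : ℝ) := ⟨_, rfl⟩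
  have hmaxpos : ∀ t, 0 < max t T := fun t => lt_max_of_lt_right (by linarith)
  have hη1 : Antitone η := by
    intro s t hst
    rw [hη]
    exact mul_le_mul_of_nonneg_left (Real.rpow_le_rpow_of_nonpos (hmaxpos s)
      (max_le_max hst le_rfl) (by norm_num)) hK0
  have hη2 : Tendsto η atTop (𝓝 0) := by
    have h1 : Tendsto (fun t : ℝ => K * (max t T) ^ (-(1 / 20) : ℝ)) atTop (𝓝 (K * 0)) :=
      ((tendsto_rpow_neg_atTop (by norm_num)).comp
        (tendsto_atTop_mono (fun t => le_max_left t T) tendsto_id)).const_mul _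
    rw [mul_zero] at h1
    rw [hη]
    refine h1.congr fun t => ?_
    rw [neg_div]
  have hη3 : ∀ t, η t ≤ ε := by
    intro t
    rw [hη]
    refine le_trans (mul_le_mul_of_nonneg_left (Real.rpow_le_rpow_of_nonpos (by linarith)
      (le_max_right t T) (by norm_num)) hK0) hTε
  have hη0 : ∀ t, 0 ≤ η t := fun t => by
    rw [hη]
    exact mul_nonneg hK0 (Real.rpow_nonneg (hmaxpos t).le _)
  have hη4 : ∀ p : E m, |Gf p| ≤ η p.2 ∧ ‖fderiv ℝ Gf p‖ ≤ η p.2 ∧
      ‖fderiv ℝ (fderiv ℝ Gf) p‖ ≤ η p.2 := by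
    intro p
    rcases lt_or_ge p.2 T with hp | hp
    · have h1 := hG0 p hp
      have h2 : fderiv ℝ Gf =ᶠ[𝓝 p] 0 := by
        filter_upwards [h1.eventuallyEq_nhds] with q hq
        rw [hq.fderiv_eq]
        exact fderiv_const_apply (0 : ℝ)
      have h3 : fderiv ℝ (fderiv ℝ Gf) p = 0 := by
        rw [h2.fderiv_eq]
        exact fderiv_const_apply (0 : E m →L[ℝ] ℝ)
      have h4 : Gf p = 0 := h1.eq_of_nhds
      have h5 : fderiv ℝ Gf p = 0 := h2.eq_of_nhds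
      rw [h3, h4, h5, abs_zero, norm_zero, ContinuousLinearMap.opNorm_zero]
      exact ⟨hη0 _, hη0 _, hη0 _⟩
    · have h1 := hjet p (by linarith)
      have h2 : η p.2 = K * p.2 ^ (-1 / 20 : ℝ) := by rw [hη]; simp only [max_eq_left hp]
      rw [h2]
      exact h1
  have hper : ∀ (p : E m) (k : Fin (m + 1) → ℤ), Gf (p.1 + (fun i => (k i : ℝ)), p.2) = Gf p := by
    intro p k
    rw [hGf]
    simp only [cut]
    rw [tub_per]
  have hgerm : ∀ p : E m, bpr X =ᶠ[𝓝 p] 0 → Gf =ᶠ[𝓝 p] 0 := by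
    intro p hp
    filter_upwards [tub_of_bpr R hp] with q hq
    rw [hGf]
    simp only [hq, Pi.zero_apply, mul_zero]
  have hdj : ∀ (p : E m) (k : ℕ), 1 ≤ k → Gf =ᶠ[𝓝 p] 0 ∨ Gf =ᶠ[𝓝 (p.1, p.2 + k)] 0 := by
    intro p k hk
    rcases lt_or_ge p.2 T with hp | hp
    · exact Or.inl (hG0 p hp)
    · exact (hdis p (hTT.trans hp) k hk).imp (hgerm _) (hgerm _)
  obtain ⟨g, hg1, hg2, hg3, hg4⟩ := ES.lim m Gf η ε hGcd
    (fun p hp => by
      rw [hGf]
      simp only [cut]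
      rw [Real.smoothTransition.zero_of_nonpos (by linarith), zero_mul])
    hper hη1 hη2 hη3 hη4 hdj
  -- the orbit
  have hXd : ∀ i, D2 fun t => X t i := by
    intro i
    refine d2_congr ((hX i).d2.add (d2_th0 i)) fun t _ => ?_
    simp only [th]
    ring
  have hgrad : ∀ t, T + 1 < t → ∀ i, dX i g (X t, t) = R i t := by
    intro t ht i
    have hnot : ¬ bpr X =ᶠ[𝓝 (X t, t)] 0 := by
      intro h0
      have := h0.eq_of_nhds
      rw [bpr_center] at this
      exact one_ne_zero this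
    have h1 : ∀ k : ℤ, k ≠ 0 → Gf =ᶠ[𝓝 ((X t, t).1, (X t, t).2 + k)] 0 := by
      intro k hk
      rcases lt_or_gt_of_ne hk with hk | hk
      · obtain ⟨n, hn⟩ : ∃ n : ℕ, (n : ℤ) = -k := ⟨(-k).toNat, Int.toNat_of_nonneg (by omega)⟩
        rcases lt_or_ge (t + k) T with hp | hp
        · exact hG0 _ hp
        · have h2 := hdis (X t, t + k) (hTT.trans hp) n (by omega)
          have h3 : t + k + n = t := by
            have : (n : ℝ) = -k := by exact_mod_cast hn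
            rw [this]
            ring
          simp only [h3] at h2
          exact hgerm _ (h2.resolve_right hnot)
      · obtain ⟨n, hn⟩ : ∃ n : ℕ, (n : ℤ) = k := ⟨k.toNat, Int.toNat_of_nonneg (by omega)⟩
        have h2 := hdis (X t, t) (hTT.trans (by simp only; linarith)) n (by omega)
        have h3 : (n : ℝ) = k := by exact_mod_cast hn
        rw [h3] at h2
        exact hgerm _ (h2.resolve_left hnot)
    have h4 : dX i g (X t, t) = dX i Gf (X t, t) := by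
      unfold dX
      rw [hg4 _ h1]
    have h5 : Gf =ᶠ[𝓝 (X t, t)] tub X R := by
      have h6 : ∀ᶠ q : E m in 𝓝 (X t, t), T + 1 < q.2 :=
        continuous_snd.continuousAt.eventually (lt_mem_nhds (by simpa using ht))
      filter_upwards [h6] with q hq
      rw [hGf]
      simp only [cut]
      rw [Real.smoothTransition.one_of_one_le (by linarith), one_mul]
    rw [h4]
    have h6 : dX i Gf (X t, t) = dX i (tub X R) (X t, t) := by
      unfold dX
      rw [h5.fderiv_eq]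
    rw [h6]
    exact tug m X R t (by linarith)
      ((hcdt (X t, t) (by simp only; linarith)).differentiableAt (by norm_num)) i
  have hsol : Sol A (fun p => h p + g p) X (Ioi (T + 1)) := by
    intro t ht
    have ht0 : (0 : ℝ) < t := by
      have := mem_Ioi.1 ht
      linarith
    refine ⟨fun i => ((hXd i).1 t ht0).differentiableAt (Ioi_mem_nhds ht0),
      fun i => ((hXd i).2 t ht0).differentiableAt (Ioi_mem_nhds ht0), fun i => ?_⟩
    have h1 : dX i (fun p => h p + g p) (X t, t) = dX i h (X t, t) + dX i g (X t, t) := by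
      unfold dX
      rw [fderiv_fun_add (hh.diff _) (hg1.differentiable (by norm_num) _)]
      rfl
    rw [h1, hgrad t ht i, hRd]
    unfold res
    ring
  obtain ⟨γ, hγ1, hγ2⟩ := ES.ode m A (fun p => h p + g p) (T + 1) X hdet
    ((hh.1.of_le (WithTop.coe_le_coe.2 (le_top : (2 : ℕ∞) ≤ ⊤))).add hg1)
    (fun p k l => by
      show h _ + g _ = h p + g p
      rw [hh.2 p k l, hg2 p k l]) hsol
  refine ⟨g, γ, hg1, hg2, hg3, hγ1, ?_⟩
  -- the speed
  obtain ⟨D, hD0, hDb⟩ := (hX 0).deriv.bd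
  have h1 : Tendsto (fun t : ℝ => 4 * D * t ^ (-(2 / 5) : ℝ)) atTop (𝓝 (4 * D * 0)) :=
    (tendsto_rpow_neg_atTop (by norm_num)).const_mul _
  rw [mul_zero] at h1
  filter_upwards [h1.eventually (gt_mem_nhds one_pos), eventually_gt_atTop (T + 2)]
    with t ht1 ht2
  have ht0 : (0 : ℝ) < t := by linarith
  have e1 : (fun s => γ s 0) =ᶠ[𝓝 t] fun s => (X s 0 - th m s 0) + th0 0 s := by
    filter_upwards [lt_mem_nhds ht2] with s hs
    rw [hγ2 s (by linarith)]
    simp [th]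
  rw [e1.deriv_eq, deriv_fun_add ((hX 0).diffAt ht0) (hasDerivAt_th0 0 ht0).differentiableAt,
    (hasDerivAt_th0 0 ht0).deriv]
  have e2 : th1 0 t = t ^ (1 / 5 : ℝ) := by simp [th1]
  rw [e2]
  have e3 := hDb t (by linarith)
  have e4 : t ^ (-2 / 5 + 1 / 5 : ℝ) = t ^ (-(2 / 5) : ℝ) * t ^ (1 / 5 : ℝ) := by
    rw [← Real.rpow_add ht0]
    norm_num
  rw [e4] at e3
  have e5 := (abs_le.1 e3).1
  have e6 : 0 < t ^ (1 / 5 : ℝ) := Real.rpow_pos_of_pos ht0 _
  nlinarith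

end Pool.Agent.Helper6K9.E3
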