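import Pool.Agent.Helper6K9.E3.SyB
import Pool.Agent.Helper6K9.ES.Apx

set_option autoImplicit false

/-!
# Twice differentiable functions
-/

namespace Pool.Agent.Helper6K9.E3

open Set Filter Topology
open Pool.Agent.Helper6K9.ES (D2)

theorem SyA.d2 {a : ℝ} {f : ℝ → ℝ} (H : SyA a f) : D2 f := ⟨H.diffOn, H.deriv.diffOn⟩

theorem d2_th0 (i : ℕ) : D2 (th0 i) := by
  refine ⟨fun t ht => (hasDerivAt_th0 i ht).differentiableAt.differentiableWithinAt, ?_⟩
  refine (syA_th1 i).diffOn.congr fun t ht => ?_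
  exact (hasDerivAt_th0 i ht).deriv

theorem syA_deriv_th1 (i : ℕ) : SyA (-4 / 5) (deriv (th1 i)) := by
  have key : ∀ q : ℝ, q ≤ 1 / 5 → (∀ t, 0 < t → th1 i t = t ^ q) →
      SyA (-4 / 5) (deriv (th1 i)) := by
    intro q hq e
    refine (syA_rpow q (q - 1) (by linarith)).congr fun t ht => ?_
    have h1 : th1 i =ᶠ[𝓝 t] fun t => t ^ q := by
      filter_upwards [lt_mem_nhds ht] with s hs using e s hs
    rw [h1.deriv_eq]
    exact (Real.hasDerivAt_rpow_const (x := t) (p := q) (Or.inl ht.ne')).deriv.symm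
  rcases Nat.lt_or_ge i 3 with hi | hi
  · interval_cases i
    · exact key (1 / 5) le_rfl fun t _ => by simp [th1]
    · exact key (-11 / 20) (by norm_num) fun t _ => by simp [th1]
    · exact key (-11 / 10) (by norm_num) fun t _ => by simp [th1]
  · have h0 : i ≠ 0 := by omega
    have h1 : i ≠ 1 := by omega
    have h2 : i ≠ 2 := by omega
    have e : th1 i = fun _ => 0 := by
      funext s
      simp [th1, h0, h1, h2]
    rw [e]
    exact syA_zero.congr fun t _ => (deriv_const t (0 : ℝ)).symm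

theorem syA_deriv2_th0 (i : ℕ) : SyA (-4 / 5) (deriv (deriv (th0 i))) := by
  refine (syA_deriv_th1 i).congr fun t ht => ?_
  refine Filter.EventuallyEq.deriv_eq ?_
  filter_upwards [lt_mem_nhds ht] with s hs using (hasDerivAt_th0 i hs).deriv.symm

end Pool.Agent.Helper6K9.E3
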