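import Pool.Agent.Helper6K9.ES.Red

set_option autoImplicit false

/-!
# Orbits which escape to infinity on flat tori of dimension at least three: definitions

Same notation as in `Helper6K9/ES/Defs` (`Q m`, `E m`, `Per`, `Sm`, `dX`, `dT`, `av`, `an`, `res`, `bmp`,
`Small`, `Sol`); new are the curve `th` (fast velocity `t^(1/5)`, slow velocities `t^(-11/20)` and
`t^(-11/10)`), the symbols (growth `t^(1/5)` per derivative), the tube and the class `Gen h`.
-/

namespace Pool.Agent.Helper6K9.E3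

open Set Filter Topology
open scoped ContDiff
open Pool.Agent.Helper6K9.ES (Q E Per Sm dX dT av an res bmp Small Sol)

variable {m : ℕ}

/-- the components of the curve: `th0 0` has the velocity `t^(1/5)`, `th0 1` has the velocity
`t^(-11/20)`, `th0 2` has the velocity `t^(-11/10)` -/
noncomputable def th0 (i : ℕ) (t : ℝ) : ℝ :=
  if i = 0 then 5 / 6 * t ^ (6 / 5 : ℝ)
  else if i = 1 then 20 / 9 * t ^ (9 / 20 : ℝ)
  else if i = 2 then -10 * t ^ (-1 / 10 : ℝ)
  else 0

/-- the curve -/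
noncomputable def th (m : ℕ) (t : ℝ) : Q m := fun i => th0 i t

/-- Symbols: `h` and its first `J` derivatives are `O(t^a)`, `O(t^(a+1/5))`, … for `t ≥ 1`. -/
def Sy : ℕ → ℝ → (ℝ → ℝ) → Prop
  | 0, a, h => ∃ C : ℝ, ∀ t : ℝ, 1 ≤ t → |h t| ≤ C * t ^ a
  | J + 1, a, h => (∃ C : ℝ, ∀ t : ℝ, 1 ≤ t → |h t| ≤ C * t ^ a) ∧
      DifferentiableOn ℝ h (Ioi 0) ∧ Sy J (a + 1 / 5) (deriv h)

/-- symbols of order `a` with all derivatives -/
def SyA (a : ℝ) (h : ℝ → ℝ) : Prop := ∀ J : ℕ, Sy J a h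

/-- a smooth curve the velocity of which is a symbol of order `1/5` -/
def Crv (Y : ℝ → Q m) : Prop :=
  ∀ i, DifferentiableOn ℝ (fun t => Y t i) (Ioi 0) ∧ SyA (1 / 5) (deriv fun t => Y t i)

/-- the cut-off of the tube around the curve `X`: width `t^(-7/20)` in the fast direction, width
`t^(-11/20)` in the slow directions -/
noncomputable def bpr (X : ℝ → Q m) (p : E m) : ℝ :=
  bmp (p.2 ^ (7 / 20 : ℝ) * Real.sin (Real.pi * (p.1 0 - X p.2 0))) *
    ∏ i : Fin m, bmp (p.2 ^ (11 / 20 : ℝ) * Real.sin (Real.pi * (p.1 i.succ - X p.2 i.succ)))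

/-- The potential in the tube around the curve `X` with the forces `R`. -/
noncomputable def tub (X : ℝ → Q m) (R : Fin (m + 1) → ℝ → ℝ) (p : E m) : ℝ :=
  bpr X p *
    ∑ i : Fin (m + 1), R i p.2 * (Real.sin (2 * Real.pi * (p.1 i - X p.2 i)) / (2 * Real.pi))

/-- the functions obtained from the forces `∂h/∂x_i` -/
inductive Gen (h : E m → ℝ) : (E m → ℝ) → Prop
  | base (i : Fin (m + 1)) : Gen h (dX i h)
  | dx (i : Fin (m + 1)) {F : E m → ℝ} : Gen h F → Gen h (dX i F)
  | dt {F : E m → ℝ} : Gen h F → Gen h (dT F)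
  | an {F : E m → ℝ} : Gen h F → Gen h (ES.an F)

/-- No resonances up to the second order: the averages in the direction of `x 0` of the forces are
zero, and those of the products of two functions in `Gen h` depend on the time only. -/
def Nice (h : E m → ℝ) : Prop :=
  Sm h ∧ (∀ i p, av (dX i h) p = 0) ∧
  ∀ F G, Gen h F → Gen h G → ∀ p q : E m, p.2 = q.2 →
    av (fun x => F x * G x) p = av (fun x => F x * G x) q

/-- trigonometric polynomials in `x` with frequencies in `S`, the coefficients are smooth periodic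
functions of the time -/
def TP (S : Set (Fin (m + 1) → ℤ)) (F : E m → ℝ) : Prop :=
  ∃ (s : Finset (Fin (m + 1) → ℤ)) (c d : (Fin (m + 1) → ℤ) → ℝ → ℝ),
    (∀ k ∈ s, k ∈ S) ∧
    (∀ k, ContDiff ℝ ∞ (c k) ∧ ContDiff ℝ ∞ (d k) ∧ (∀ t, c k (t + 1) = c k t) ∧
      ∀ t, d k (t + 1) = d k t) ∧
    ∀ p : E m, F p = ∑ k ∈ s, (c k p.2 * Real.cos (2 * Real.pi * ∑ i, (k i : ℝ) * p.1 i) +
      d k p.2 * Real.sin (2 * Real.pi * ∑ i, (k i : ℝ) * p.1 i))

end Pool.Agent.Helper6K9.E3
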