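import Pool.Agent.Helper6K9.E3.Stm
import Pool.Agent.Helper6K9.ES.Ops

/-! # Project E3: leaf ID, the identities for the resonant forces (helper12) -/

set_option autoImplicit false

namespace Pool.Agent.Helper6K9.E3

open Set Filter Topology
open scoped ContDiff
open Pool.Agent.Helper6K9.ES (Q E Per Sm dX dT av an ops)

namespace IdL

variable {m : ℕ}

/-- the average of the product -/
noncomputable def pr (F G : E m → ℝ) : E m → ℝ := av (fun x => F x * G x)

theorem pr_comm (F G : E m → ℝ) : pr F G = pr G F := by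
  unfold pr
  congr 1
  funext x
  ring

theorem mul_sm {F G : E m → ℝ} (hF : Sm F) (hG : Sm G) : Sm (fun x => F x * G x) :=
  ⟨hF.1.mul hG.1, fun p k l => by
    show F _ * G _ = F p * G p
    rw [hF.2 p k l, hG.2 p k l]⟩

theorem av_int {F : E m → ℝ} (hF : Continuous F) (p : E m) :
    IntervalIntegrable (fun s : ℝ => F (p.1 + s • Pi.single (0 : Fin (m + 1)) (1 : ℝ), p.2))
      MeasureTheory.volume 0 1 := by
  refine Continuous.intervalIntegrable ?_ _ _
  exact hF.comp (by fun_prop)

theorem av_add {F G : E m → ℝ} (hF : Continuous F) (hG : Continuous G) (p : E m) :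
    av (fun x => F x + G x) p = av F p + av G p := by
  unfold av
  exact intervalIntegral.integral_add (av_int hF p) (av_int hG p)

theorem av_smul (c : ℝ) (F : E m → ℝ) (p : E m) : av (fun x => c * F x) p = c * av F p := by
  unfold av
  exact intervalIntegral.integral_const_mul _ _

theorem av_sum {ι : Type} (s : Finset ι) {F : ι → E m → ℝ} (hF : ∀ i, Continuous (F i)) (p : E m) :
    av (fun x => ∑ i ∈ s, F i x) p = ∑ i ∈ s, av (F i) p := by
  unfold av
  exact intervalIntegral.integral_finset_sum fun i _ => av_int (hF i) p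

theorem dir_mul {F G : E m → ℝ} (hF : Sm F) (hG : Sm G) (p v : E m) :
    fderiv ℝ (fun x => F x * G x) p v = fderiv ℝ F p v * G p + F p * fderiv ℝ G p v := by
  have h1 := fderiv_fun_mul (hF.1.differentiable (by simp) p) (hG.1.differentiable (by simp) p)
  rw [h1]
  simp only [ContinuousLinearMap.add_apply, ContinuousLinearMap.smul_apply, smul_eq_mul]
  ring

theorem dX_pr {F G : E m → ℝ} (hF : Sm F) (hG : Sm G) (i : Fin (m + 1)) (p : E m) :
    dX i (pr F G) p = pr (dX i F) G p + pr F (dX i G) p := by
  have h1 := (ops m _ (mul_sm hF hG)).2.2.2.2.1 i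
  unfold pr
  rw [h1]
  have h2 : dX i (fun x => F x * G x) = fun x => dX i F x * G x + F x * dX i G x := by
    funext x
    exact dir_mul hF hG x _
  have hF' := (ops m F hF).1 i
  have hG' := (ops m G hG).1 i
  rw [h2]
  exact av_add (hF'.1.continuous.mul hG.1.continuous) (hF.1.continuous.mul hG'.1.continuous) p

theorem dT_pr {F G : E m → ℝ} (hF : Sm F) (hG : Sm G) (p : E m) :
    dT (pr F G) p = pr (dT F) G p + pr F (dT G) p := by
  have h1 := (ops m _ (mul_sm hF hG)).2.2.2.2.2.1
  unfold pr
  rw [h1]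
  have h2 : dT (fun x => F x * G x) = fun x => dT F x * G x + F x * dT G x := by
    funext x
    exact dir_mul hF hG x _
  have hF' := (ops m F hF).2.1
  have hG' := (ops m G hG).2.1
  rw [h2]
  exact av_add (hF'.1.continuous.mul hG.1.continuous) (hF.1.continuous.mul hG'.1.continuous) p

theorem gen_sm {h F : E m → ℝ} (hh : Sm h) (hF : Gen h F) : Sm F := by
  induction hF with
  | base i => exact (ops m h hh).1 i
  | dx i _ ih => exact (ops m _ ih).1 i
  | dt _ ih => exact (ops m _ ih).2.1
  | an _ ih => exact (ops m _ ih).2.2.2.1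

/-- a function of the time only has no derivative in the directions of the space -/
theorem dX_of_time {F : E m → ℝ} (hF : Sm F) (hT : ∀ p q : E m, p.2 = q.2 → F p = F q)
    (i : Fin (m + 1)) (p : E m) : dX i F p = 0 := by
  have h1 : HasFDerivAt F (fderiv ℝ F p) (p + (0 : ℝ) • ((Pi.single i 1, 0) : E m)) := by
    rw [zero_smul, add_zero]
    exact (hF.1.differentiable (by simp) p).hasFDerivAt
  have h2 : HasDerivAt (fun s : ℝ => p + s • ((Pi.single i 1, 0) : E m)) (Pi.single i 1, 0) 0 := by
    simpa using ((hasDerivAt_id (0 : ℝ)).smul_const ((Pi.single i 1, 0) : E m)).const_add p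
  have h3 := h1.comp_hasDerivAt (0 : ℝ) h2
  have h4 : (F ∘ fun s : ℝ => p + s • ((Pi.single i 1, 0) : E m)) = fun _ => F p := by
    funext s
    exact hT _ _ (by simp)
  rw [h4] at h3
  exact h3.unique (hasDerivAt_const _ _)

theorem av_zero (p : E m) : av (fun _ : E m => (0 : ℝ)) p = 0 := by
  unfold av
  simp

theorem gen_av {h F : E m → ℝ} (hh : Nice h) (hF : Gen h F) : ∀ p, av F p = 0 := by
  induction hF with
  | base i => exact hh.2.1 i
  | @dx i F hF ih =>
    intro p
    have h1 := (ops m F (gen_sm hh.1 hF)).2.2.2.2.1 i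
    rw [← h1]
    have h2 : av F = fun _ => 0 := funext ih
    rw [h2]
    simp [dX]
  | @dt F hF ih =>
    intro p
    have h1 := (ops m F (gen_sm hh.1 hF)).2.2.2.2.2.1
    rw [← h1]
    have h2 : av F = fun _ => 0 := funext ih
    rw [h2]
    simp [dT]
  | @an F hF _ => exact (ops m F (gen_sm hh.1 hF)).2.2.2.2.2.2.2.2.2.2.2

/-- integration by parts in the space variables -/
theorem parts {h F G : E m → ℝ} (hh : Nice h) (hF : Gen h F) (hG : Gen h G) (i : Fin (m + 1))
    (p : E m) : pr (dX i F) G p = - pr F (dX i G) p := by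
  have h1 := dX_pr (gen_sm hh.1 hF) (gen_sm hh.1 hG) i p
  have h2 : dX i (pr F G) p = 0 :=
    dX_of_time (ops m _ (mul_sm (gen_sm hh.1 hF) (gen_sm hh.1 hG))).2.2.1
      (hh.2.2 F G hF hG) i p
  rw [h2] at h1
  linarith

/-- the antiderivative is antisymmetric -/
theorem anti {h F G : E m → ℝ} (hh : Nice h) (hF : Gen h F) (hG : Gen h G) (p : E m) :
    pr F (an G) p = - pr (an F) G p := by
  have h1 : dX 0 (an F) = F := by
    funext q
    rw [(ops m F (gen_sm hh.1 hF)).2.2.2.2.2.2.2.2.1 q, gen_av hh hF q, sub_zero]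
  have h2 : dX 0 (an G) = G := by
    funext q
    rw [(ops m G (gen_sm hh.1 hG)).2.2.2.2.2.2.2.2.1 q, gen_av hh hG q, sub_zero]
  have h3 := parts hh (Gen.an hF) (Gen.an hG) 0 p
  rw [h1, h2] at h3
  exact h3

theorem dX_an {h F : E m → ℝ} (hh : Nice h) (hF : Gen h F) (i : Fin (m + 1)) :
    an (dX i F) = dX i (an F) := ((ops m F (gen_sm hh.1 hF)).2.2.2.2.2.2.1 i).symm

theorem dT_an {h F : E m → ℝ} (hh : Nice h) (hF : Gen h F) : an (dT F) = dT (an F) :=
  (ops m F (gen_sm hh.1 hF)).2.2.2.2.2.2.2.1.symm

/-- the partial derivatives commute -/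
theorem dX_dT {F : E m → ℝ} (hF : Sm F) (i : Fin (m + 1)) : dX i (dT F) = dT (dX i F) := by
  funext p
  have hd : DifferentiableAt ℝ (fderiv ℝ F) p :=
    (hF.1.fderiv_right (m := ∞) (by norm_cast)).differentiable (by simp) p
  have h1 : ∀ v w : E m, fderiv ℝ (fun q => fderiv ℝ F q v) p w = fderiv ℝ (fderiv ℝ F) p w v := by
    intro v w
    have h2 := (hd.hasFDerivAt.clm_apply (hasFDerivAt_const v p)).fderiv
    rw [h2]
    simp
  have hs : IsSymmSndFDerivAt ℝ F p := by
    refine ContDiffAt.isSymmSndFDerivAt (n := ∞) hF.1.contDiffAt ?_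
    rw [minSmoothness_of_isRCLikeNormedField]
    show ((2 : ℕ∞) : WithTop ℕ∞) ≤ ((⊤ : ℕ∞) : WithTop ℕ∞)
    exact WithTop.coe_le_coe.2 le_top
  unfold dX dT
  rw [h1, h1]
  exact hs.eq _ _

end IdL

open IdL

theorem id_ : S_ID := by
  intro m B h hB hh i
  have hsm : ∀ {F}, Gen h F → Sm F := fun hF => gen_sm hh.1 hF
  have hb : ∀ j, Gen h (dX j h) := fun j => Gen.base j
  have hct : ∀ {F}, Gen h F → Continuous F := fun hF => (hsm hF).1.continuous
  -- linearity
  have hlin : ∀ (U V : Fin (m + 1) → E m → ℝ), (∀ j, Gen h (U j)) → (∀ j, Gen h (V j)) → ∀ p,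
      av (fun x => ∑ j, ∑ k, B j k * (U j x * V k x)) p = ∑ j, ∑ k, B j k * pr (U j) (V k) p := by
    intro U V hU hV p
    have h1 : ∀ j k, Continuous fun x => B j k * (U j x * V k x) := fun j k =>
      continuous_const.mul ((hct (hU j)).mul (hct (hV k)))
    rw [av_sum Finset.univ (F := fun j x => ∑ k, B j k * (U j x * V k x))
      (fun j => continuous_finset_sum _ fun k _ => h1 j k)]
    refine Finset.sum_congr rfl fun j _ => ?_
    rw [av_sum Finset.univ (F := fun k x => B j k * (U j x * V k x)) (fun k => h1 j k)]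
    refine Finset.sum_congr rfl fun k _ => ?_
    exact av_smul _ _ _
  have hsym : ∀ f : Fin (m + 1) → Fin (m + 1) → ℝ, ∑ j, ∑ k, B j k * f k j = ∑ j, ∑ k, B j k * f j k := by
    intro f
    rw [Finset.sum_comm]
    refine Finset.sum_congr rfl fun j _ => Finset.sum_congr rfl fun k _ => ?_
    rw [hB.apply]
  refine ⟨fun p => ?_, ?_⟩
  · rw [hlin (fun j => dX i (dX j h)) (fun k => an (an (dX k h))) (fun j => Gen.dx i (hb j))
      (fun k => Gen.an (Gen.an (hb k)))]
    have h1 : ∀ j k, pr (dX i (dX j h)) (an (an (dX k h))) p =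
        - pr (dX i (an (dX j h))) (an (dX k h)) p := by
      intro j k
      rw [anti hh (Gen.dx i (hb j)) (Gen.an (hb k)), dX_an hh (hb j)]
    have h2 : ∀ j k, pr (dX i (an (dX j h))) (an (dX k h)) p =
        - pr (dX i (an (dX k h))) (an (dX j h)) p := by
      intro j k
      rw [parts hh (Gen.an (hb j)) (Gen.an (hb k)), pr_comm]
    have h3 := hsym fun j k => pr (dX i (an (dX j h))) (an (dX k h)) p
    have h4 : ∑ j, ∑ k, B j k * pr (dX i (an (dX j h))) (an (dX k h)) p =
        - ∑ j, ∑ k, B j k * pr (dX i (an (dX k h))) (an (dX j h)) p := by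
      rw [← Finset.sum_neg_distrib]
      refine Finset.sum_congr rfl fun j _ => ?_
      rw [← Finset.sum_neg_distrib]
      refine Finset.sum_congr rfl fun k _ => ?_
      rw [h2 j k]
      ring
    have h5 : ∑ j, ∑ k, B j k * pr (dX i (dX j h)) (an (an (dX k h))) p =
        - ∑ j, ∑ k, B j k * pr (dX i (an (dX j h))) (an (dX k h)) p := by
      rw [← Finset.sum_neg_distrib]
      refine Finset.sum_congr rfl fun j _ => ?_
      rw [← Finset.sum_neg_distrib]
      refine Finset.sum_congr rfl fun k _ => ?_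
      rw [h1 j k]
      ring
    rw [h5]
    linarith
  · -- the second identity
    set q : Fin (m + 1) → Fin (m + 1) → E m → ℝ := fun j k =>
      pr (dX i (dX j h)) (an (an (an (dT (dX k h))))) with hq
    set r : Fin (m + 1) → Fin (m + 1) → E m → ℝ := fun j k =>
      pr (an (an (an (dX j h)))) (dX i (dX k h)) with hr
    have hqr : ∀ j k p, q j k p + q k j p = dT (r j k) p := by
      intro j k p
      have e1 : q j k p = - pr (an (an (an (dX i (dX j h))))) (dT (dX k h)) p := by
        simp only [hq]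
        rw [anti hh (Gen.dx i (hb j)) (Gen.an (Gen.an (Gen.dt (hb k)))),
          anti hh (Gen.an (Gen.dx i (hb j))) (Gen.an (Gen.dt (hb k))),
          anti hh (Gen.an (Gen.an (Gen.dx i (hb j)))) (Gen.dt (hb k))]
        ring
      have e2 : an (an (an (dX i (dX j h)))) = dX i (an (an (an (dX j h)))) := by
        rw [dX_an hh (hb j), dX_an hh (Gen.an (hb j)), dX_an hh (Gen.an (Gen.an (hb j)))]
      rw [e2, parts hh (Gen.an (Gen.an (Gen.an (hb j)))) (Gen.dt (hb k)), neg_neg,
        dX_dT (hsm (hb k))] at e1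
      have e3 := dT_pr (hsm (Gen.an (Gen.an (Gen.an (hb j))))) (hsm (Gen.dx i (hb k))) p
      have e4 : dT (an (an (an (dX j h)))) = an (an (an (dT (dX j h)))) := by
        rw [dT_an hh (hb j), dT_an hh (Gen.an (hb j)), dT_an hh (Gen.an (Gen.an (hb j)))]
      rw [e4, pr_comm (an (an (an (dT (dX j h)))))] at e3
      rw [e1]
      simp only [hq, hr]
      rw [e3]
      ring
    have hrS : ∀ j k, Sm (r j k) := fun j k =>
      (ops m _ (mul_sm (hsm (Gen.an (Gen.an (Gen.an (hb j))))) (hsm (Gen.dx i (hb k))))).2.2.1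
    -- the function of the time
    set R : ℝ → ℝ := fun t => 1 / 2 * ∑ j, ∑ k, B j k * r j k (0, t) with hR
    have hRd : ∀ t, HasDerivAt R (1 / 2 * ∑ j, ∑ k, B j k * dT (r j k) (0, t)) t := by
      intro t
      refine HasDerivAt.const_mul _ ?_
      refine HasDerivAt.fun_sum fun j _ => HasDerivAt.fun_sum fun k _ => ?_
      refine HasDerivAt.const_mul _ ?_
      have h1 : HasFDerivAt (r j k) (fderiv ℝ (r j k) (0, t)) ((0, t) : E m) :=
        ((hrS j k).1.differentiable (by simp) _).hasFDerivAt
      have h2 : HasDerivAt (fun s : ℝ => ((0, s) : E m)) ((0, 1) : E m) t :=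
        (hasDerivAt_const t (0 : Q m)).prodMk (hasDerivAt_id t)
      exact h1.comp_hasDerivAt t h2
    have hRs : ContDiff ℝ ∞ R := by
      refine contDiff_const.mul ?_
      refine ContDiff.sum fun j _ => ContDiff.sum fun k _ => contDiff_const.mul ?_
      exact (hrS j k).1.comp (contDiff_const.prodMk contDiff_id)
    have hRp : Function.Periodic R 1 := by
      intro t
      simp only [hR]
      congr 1
      refine Finset.sum_congr rfl fun j _ => Finset.sum_congr rfl fun k _ => ?_
      congr 1
      have h1 := (hrS j k).2 (0, t) 0 1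
      rw [← h1]
      congr 1
      ext
      · simp
      · simp
    set c : ℝ := ∫ s in (0 : ℝ)..1, R s with hc
    set W : ℝ → ℝ := fun t => ∫ s in (0 : ℝ)..t, (R s - c) with hW
    have hcont : Continuous fun s => R s - c := hRs.continuous.sub continuous_const
    have hWd : ∀ t, HasDerivAt W (R t - c) t := fun t =>
      intervalIntegral.integral_hasDerivAt_right (hcont.intervalIntegrable _ _)
        (hcont.stronglyMeasurableAtFilter _ _) hcont.continuousAt
    have hWd' : deriv W = fun t => R t - c := funext fun t => (hWd t).deriv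
    refine ⟨W, ?_, ?_, ?_⟩
    · rw [contDiff_infty_iff_deriv]
      refine ⟨fun t => (hWd t).differentiableAt, ?_⟩
      rw [hWd']
      exact hRs.sub contDiff_const
    · intro t
      have h1 : W (t + 1) - W t = ∫ s in t..(t + 1), (R s - c) := by
        simp only [hW]
        exact intervalIntegral.integral_interval_sub_left (hcont.intervalIntegrable _ _)
          (hcont.intervalIntegrable _ _)
      have h2 : Function.Periodic (fun s => R s - c) 1 := fun s => by
        show R (s + 1) - c = R s - c
        rw [hRp s]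
      have h3 := h2.intervalIntegral_add_eq t 0
      rw [zero_add] at h3
      have h4 : ∫ s in (0 : ℝ)..1, (R s - c) = 0 := by
        rw [intervalIntegral.integral_sub (hRs.continuous.intervalIntegrable _ _)
          (continuous_const.intervalIntegrable _ _)]
        simp [hc]
      rw [h3, h4] at h1
      linarith
    · intro p
      rw [hWd']
      have h1 : deriv (fun t => R t - c) p.2 = 1 / 2 * ∑ j, ∑ k, B j k * dT (r j k) (0, p.2) :=
        ((hRd p.2).sub_const c).deriv
      rw [h1, hlin (fun j => dX i (dX j h)) (fun k => an (an (an (dT (dX k h)))))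
        (fun j => Gen.dx i (hb j)) (fun k => Gen.an (Gen.an (Gen.an (Gen.dt (hb k)))))]
      have h2 : ∀ j k, pr (dX i (dX j h)) (an (an (an (dT (dX k h))))) p = q j k (0, p.2) := by
        intro j k
        exact hh.2.2 _ _ (Gen.dx i (hb j)) (Gen.an (Gen.an (Gen.an (Gen.dt (hb k))))) p (0, p.2) rfl
      have h3 := hsym fun j k => q j k (0, p.2)
      have h4 : ∑ j, ∑ k, B j k * dT (r j k) (0, p.2) =
          (∑ j, ∑ k, B j k * q j k (0, p.2)) + ∑ j, ∑ k, B j k * q k j (0, p.2) := by
        rw [← Finset.sum_add_distrib]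
        refine Finset.sum_congr rfl fun j _ => ?_
        rw [← Finset.sum_add_distrib]
        refine Finset.sum_congr rfl fun k _ => ?_
        rw [← hqr j k]
        ring
      simp only [h2]
      rw [h4, h3]
      ring

end Pool.Agent.Helper6K9.E3
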