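import Pool.Agent.Helper6K9.E3.Cmp

set_option autoImplicit false

/-!
# [ZP] solution of the linear equation along the curve, second order
-/

namespace Pool.Agent.Helper6K9.E3

open Set Filter Topology
open scoped ContDiff
open Pool.Agent.Helper6K9.ES (Q E Per Sm dX dT av an res bmp Small Sol S_OPS)

namespace ZpL

open CmpL

variable {m : ℕ}

/-- sums of multiples of `t^b K(th, t)`, with `b ≤ β` and `K` of average zero -/
inductive Cl (m : ℕ) : ℝ → (ℝ → ℝ) → Prop
  | term (β b : ℝ) (K : E m → ℝ) : b ≤ β → Sm K → (∀ q, av K q = 0) →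
      Cl m β (fun t => t ^ b * K (th m t, t))
  | smul (β c : ℝ) (f : ℝ → ℝ) : Cl m β f → Cl m β (fun t => c * f t)
  | add (β : ℝ) (f g : ℝ → ℝ) : Cl m β f → Cl m β g → Cl m β (fun t => f t + g t)
  | congr (β : ℝ) (f g : ℝ → ℝ) : (∀ t, 0 < t → f t = g t) → Cl m β f → Cl m β g

theorem cl_mono {β β' : ℝ} {f : ℝ → ℝ} (h : Cl m β f) (e : β ≤ β') : Cl m β' f := by
  induction h with
  | term b K hb hK h0 => exact Cl.term _ b K (hb.trans e) hK h0
  | smul c f _ ih => exact Cl.smul _ c f ih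
  | add f g _ _ ih1 ih2 => exact Cl.add _ f g ih1 ih2
  | congr f g hfg _ ih => exact Cl.congr _ f g hfg ih

theorem cl_zero (β : ℝ) : Cl m β (fun _ => 0) := by
  have hS : Sm (fun _ : E m => (0 : ℝ)) := ⟨contDiff_const, fun _ _ _ => rfl⟩
  refine Cl.congr β _ _ (fun t _ => ?_) (Cl.term β β (fun _ => 0) le_rfl hS fun q => ?_)
  · ring
  · simp [av]

theorem cl_sum {ι : Type} {β : ℝ} (s : Finset ι) {F : ι → ℝ → ℝ} (H : ∀ i ∈ s, Cl m β (F i)) :
    Cl m β (fun t => ∑ i ∈ s, F i t) := by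
  classical
  induction s using Finset.induction_on with
  | empty => exact Cl.congr β _ _ (fun t _ => by simp) (cl_zero β)
  | insert i s hi ih =>
    refine Cl.congr β _ _ (fun t _ => ?_) (Cl.add β _ _ (H i (Finset.mem_insert_self i s))
      (ih fun j hj => H j (Finset.mem_insert_of_mem hj)))
    rw [Finset.sum_insert hi]

theorem cl_sy {β : ℝ} {f : ℝ → ℝ} (h : Cl m β f) : SyA β f := by
  induction h with
  | term b K hb hK h0 =>
    exact (syA_rpow' b le_rfl).mul' (cmp m (th m) K (crv_th m) hK).1 (by linarith)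
  | smul c f _ ih => exact ih.const_mul c
  | add f g _ _ ih1 ih2 => exact ih1.add ih2
  | congr f g hfg _ ih => exact ih.congr hfg

/-- the exponents of the velocities -/
noncomputable def gam (i : ℕ) : ℝ :=
  if i = 0 then 1 / 5 else if i = 1 then -11 / 20 else -11 / 10

/-- the coefficients of the velocities -/
noncomputable def cof (i : ℕ) : ℝ := if i ≤ 2 then 1 else 0

theorem th1_eq (i : ℕ) (t : ℝ) : th1 i t = cof i * t ^ gam i := by
  rcases Nat.lt_or_ge i 3 with hi | hi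
  · interval_cases i <;> simp [th1, cof, gam]
  · have h0 : i ≠ 0 := by omega
    have h1 : i ≠ 1 := by omega
    have h2 : i ≠ 2 := by omega
    have h4 : ¬ i ≤ 2 := by omega
    simp [th1, cof, h0, h1, h2, h4]

theorem gam_succ (i : ℕ) : gam (i + 1) ≤ -11 / 20 := by
  unfold gam
  rw [if_neg (Nat.succ_ne_zero i)]
  split_ifs <;> norm_num

theorem av_dX (hops : S_OPS) {K : E m → ℝ} (hK : Sm K) (h0 : ∀ q, av K q = 0)
    (i : Fin (m + 1)) : ∀ q, av (dX i K) q = 0 := by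
  intro q
  have h := (hops m K hK).2.2.2.2.1 i
  have hz : av K = fun _ => 0 := funext h0
  rw [← h, hz]
  simp [dX]

theorem av_dT (hops : S_OPS) {K : E m → ℝ} (hK : Sm K) (h0 : ∀ q, av K q = 0) :
    ∀ q, av (dT K) q = 0 := by
  intro q
  have h := (hops m K hK).2.2.2.2.2.1
  have hz : av K = fun _ => 0 := funext h0
  rw [← h, hz]
  simp [dT]

/-- the derivative of `t^b K(th, t)` -/
theorem hasDerivAt_term (b : ℝ) {K : E m → ℝ} (hK : Sm K) {t : ℝ}
    (ht : 0 < t) : HasDerivAt (fun t => t ^ b * K (th m t, t))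
      (t ^ (b + 1 / 5) * dX 0 K (th m t, t) +
        ((b * (t ^ (b - 1) * K (th m t, t)) +
        ∑ i : Fin m, cof (i.succ : Fin (m + 1)) *
          (t ^ (b + gam (i.succ : Fin (m + 1))) * dX i.succ K (th m t, t))) +
        t ^ b * dT K (th m t, t))) t := by
  have h1 := Real.hasDerivAt_rpow_const (x := t) (p := b) (Or.inl ht.ne')
  have h2 := hasDerivAt_comp (crv_th m) hK ht
  refine (h1.mul h2).congr_deriv ?_
  have e : ∑ i, dX i K (th m t, t) * deriv (fun s => th m s i) t =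
      ∑ i : Fin (m + 1), dX i K (th m t, t) * (cof i * t ^ gam i) :=
    Finset.sum_congr rfl fun i _ => by rw [deriv_th i ht, th1_eq]
  rw [e, Fin.sum_univ_succ]
  have e0 : cof ((0 : Fin (m + 1)) : ℕ) * t ^ gam ((0 : Fin (m + 1)) : ℕ) = t ^ (1 / 5 : ℝ) := by
    simp [cof, gam]
  rw [e0, Real.rpow_add ht, mul_add, mul_add, Finset.mul_sum]
  have e1 : ∑ i : Fin m, t ^ b * (dX i.succ K (th m t, t) *
      (cof (i.succ : Fin (m + 1)) * t ^ gam (i.succ : Fin (m + 1)))) =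
      ∑ i : Fin m, cof (i.succ : Fin (m + 1)) *
          (t ^ (b + gam (i.succ : Fin (m + 1))) * dX i.succ K (th m t, t)) :=
    Finset.sum_congr rfl fun i _ => by rw [Real.rpow_add ht]; ring
  rw [e1]
  ring

/-- the small part of the derivative -/
noncomputable def sml (b : ℝ) (K : E m → ℝ) (t : ℝ) : ℝ :=
  b * (t ^ (b - 1) * K (th m t, t)) +
    ∑ i : Fin m, cof (i.succ : Fin (m + 1)) *
      (t ^ (b + gam (i.succ : Fin (m + 1))) * dX i.succ K (th m t, t))

/-- the small part of the derivative is in the class of order `b - 11/20` -/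
theorem cl_sml (hops : S_OPS) (b : ℝ) {K : E m → ℝ} (hK : Sm K) (h0 : ∀ q, av K q = 0) :
    Cl m (b - 11 / 20) (sml b K) := by
  obtain ⟨h1, h2, -⟩ := hops m K hK
  refine Cl.congr _ _ _ (fun t _ => rfl)
    (Cl.add _ _ _ (Cl.smul _ b _ (Cl.term _ (b - 1) K (by linarith) hK h0))
    (cl_sum Finset.univ fun i _ => Cl.smul _ (cof (i.succ : Fin (m + 1))) _
      (Cl.term _ (b + gam (i.succ : Fin (m + 1))) (dX i.succ K) ?_ (h1 _) (av_dX hops hK h0 _))))
  have := gam_succ (i : ℕ)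
  have e : ((i.succ : Fin (m + 1)) : ℕ) = (i : ℕ) + 1 := rfl
  rw [e]
  linarith

/-- the derivative of `t^b K(th, t)`, with the small part -/
theorem hasDerivAt_term' (b : ℝ) {K : E m → ℝ} (hK : Sm K) {t : ℝ}
    (ht : 0 < t) : HasDerivAt (fun t => t ^ b * K (th m t, t))
      (t ^ (b + 1 / 5) * dX 0 K (th m t, t) + (sml b K t + t ^ b * dT K (th m t, t))) t :=
  hasDerivAt_term b hK ht

/-- the remainder of the derivative is in the class of order `b` -/
theorem cl_rem (hops : S_OPS) (b : ℝ) {K : E m → ℝ} (hK : Sm K) (h0 : ∀ q, av K q = 0) :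
    Cl m b (fun t => sml b K t + t ^ b * dT K (th m t, t)) :=
  Cl.add _ _ _ (cl_mono (cl_sml hops b hK h0) (by linarith))
    (Cl.term _ _ _ le_rfl (hops m K hK).2.1 (av_dT hops hK h0))

/-- the class is stable under derivatives -/
theorem cl_deriv (hops : S_OPS) {β : ℝ} {f : ℝ → ℝ} (h : Cl m β f) :
    ∃ g : ℝ → ℝ, Cl m (β + 1 / 5) g ∧ ∀ t : ℝ, 0 < t → HasDerivAt f (g t) t := by
  induction h with
  | term b K hb hK h0 =>
    refine ⟨_, ?_, fun t ht => hasDerivAt_term' b hK ht⟩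
    refine Cl.add _ _ _ (Cl.term _ _ _ (by linarith) ((hops m K hK).1 0) (av_dX hops hK h0 0)) ?_
    exact cl_mono (cl_rem hops b hK h0) (by linarith)
  | smul c f _ ih =>
    obtain ⟨g, hg, hd⟩ := ih
    exact ⟨_, Cl.smul _ c g hg, fun t ht => (hd t ht).const_mul c⟩
  | add f g _ _ ih1 ih2 =>
    obtain ⟨f', hf, hdf⟩ := ih1
    obtain ⟨g', hg, hdg⟩ := ih2
    exact ⟨_, Cl.add _ f' g' hf hg, fun t ht => (hdf t ht).add (hdg t ht)⟩
  | congr f g hfg _ ih =>
    obtain ⟨f', hf, hdf⟩ := ih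
    refine ⟨f', hf, fun t ht => (hdf t ht).congr_of_eventuallyEq ?_⟩
    filter_upwards [lt_mem_nhds ht] with s hs using (hfg s hs).symm

/-- one step, with the leading term of the remainder -/
theorem step2 (hops : S_OPS) (b : ℝ) {K : E m → ℝ} (hK : Sm K) (h0 : ∀ q, av K q = 0) :
    Cl m (b - 2 / 5) (fun t => t ^ (b - 2 / 5) * an (an K) (th m t, t)) ∧
    Cl m (b - 2 / 5) (fun t => t ^ b * K (th m t, t) -
      deriv (deriv fun t => t ^ (b - 2 / 5) * an (an K) (th m t, t)) t +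
      2 * (t ^ (b - 1 / 5) * an (dT K) (th m t, t))) := by
  have hA : Sm (an K) := (hops m K hK).2.2.2.1
  have hH : Sm (an (an K)) := (hops m _ hA).2.2.2.1
  have hA0 : ∀ q, av (an K) q = 0 := (hops m K hK).2.2.2.2.2.2.2.2.2.2.2
  have hH0 : ∀ q, av (an (an K)) q = 0 := (hops m _ hA).2.2.2.2.2.2.2.2.2.2.2
  have hd1 : dX 0 (an (an K)) = an K := funext fun p => by
    rw [(hops m _ hA).2.2.2.2.2.2.2.2.1 p, hA0 p, sub_zero]
  have hd2 : dX 0 (an K) = K := funext fun p => by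
    rw [(hops m _ hK).2.2.2.2.2.2.2.2.1 p, h0 p, sub_zero]
  have hG : Sm (dT K) := (hops m K hK).2.1
  have hG0 : ∀ q, av (dT K) q = 0 := av_dT hops hK h0
  have hAG : Sm (an (dT K)) := (hops m _ hG).2.2.2.1
  have hAG0 : ∀ q, av (an (dT K)) q = 0 := (hops m _ hG).2.2.2.2.2.2.2.2.2.2.2
  have hHG : Sm (an (an (dT K))) := (hops m _ hAG).2.2.2.1
  have hHG0 : ∀ q, av (an (an (dT K))) q = 0 := (hops m _ hAG).2.2.2.2.2.2.2.2.2.2.2
  have hd3 : dX 0 (an (an (dT K))) = an (dT K) := funext fun p => by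
    rw [(hops m _ hAG).2.2.2.2.2.2.2.2.1 p, hAG0 p, sub_zero]
  have hc1 : dT (an K) = an (dT K) := (hops m K hK).2.2.2.2.2.2.2.1
  have hc2 : dT (an (an K)) = an (an (dT K)) := by
    rw [(hops m _ hA).2.2.2.2.2.2.2.1, hc1]
  refine ⟨Cl.term _ _ _ le_rfl hH hH0, ?_⟩
  -- the first derivative
  have hs1 : Cl m (b - 2 / 5 - 11 / 20) (sml (b - 2 / 5) (an (an K))) :=
    cl_sml hops (b - 2 / 5) hH hH0
  obtain ⟨s1', hs1', hds1⟩ := cl_deriv hops hs1
  have hs2 : Cl m (b - 1 / 5 - 11 / 20) (sml (b - 1 / 5) (an K)) :=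
    cl_sml hops (b - 1 / 5) hA hA0
  have hs3 : Cl m (b - 2 / 5)
      (fun t => sml (b - 2 / 5) (an (an (dT K))) t +
        t ^ (b - 2 / 5) * dT (an (an (dT K))) (th m t, t)) := cl_rem hops (b - 2 / 5) hHG hHG0
  have D1 : ∀ t : ℝ, 0 < t → HasDerivAt (fun t => t ^ (b - 2 / 5) * an (an K) (th m t, t))
      (t ^ (b - 1 / 5) * an K (th m t, t) + (sml (b - 2 / 5) (an (an K)) t +
        t ^ (b - 2 / 5) * an (an (dT K)) (th m t, t))) t := by
    intro t ht
    refine (hasDerivAt_term' (b - 2 / 5) hH ht).congr_deriv ?_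
    have e : b - 2 / 5 + 1 / 5 = b - 1 / 5 := by ring
    rw [hd1, hc2, e]
  have D2 : ∀ t : ℝ, 0 < t → HasDerivAt (fun t => t ^ (b - 1 / 5) * an K (th m t, t) +
        (sml (b - 2 / 5) (an (an K)) t + t ^ (b - 2 / 5) * an (an (dT K)) (th m t, t)))
      ((t ^ b * K (th m t, t) + (sml (b - 1 / 5) (an K) t +
          t ^ (b - 1 / 5) * an (dT K) (th m t, t))) +
        (s1' t + (t ^ (b - 1 / 5) * an (dT K) (th m t, t) +
          (sml (b - 2 / 5) (an (an (dT K))) t +
            t ^ (b - 2 / 5) * dT (an (an (dT K))) (th m t, t))))) t := by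
    intro t ht
    refine ((hasDerivAt_term' (b - 1 / 5) hA ht).add
      ((hds1 t ht).add (hasDerivAt_term' (b - 2 / 5) hHG ht))).congr_deriv ?_
    have e : b - 2 / 5 + 1 / 5 = b - 1 / 5 := by ring
    have e' : b - 1 / 5 + 1 / 5 = b := by ring
    rw [hd2, hc1, hd3, e, e']
  have D3 : ∀ t : ℝ, 0 < t →
      deriv (deriv fun t => t ^ (b - 2 / 5) * an (an K) (th m t, t)) t =
      ((t ^ b * K (th m t, t) + (sml (b - 1 / 5) (an K) t +
          t ^ (b - 1 / 5) * an (dT K) (th m t, t))) +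
        (s1' t + (t ^ (b - 1 / 5) * an (dT K) (th m t, t) +
          (sml (b - 2 / 5) (an (an (dT K))) t +
            t ^ (b - 2 / 5) * dT (an (an (dT K))) (th m t, t))))) := by
    intro t ht
    have : deriv (fun t => t ^ (b - 2 / 5) * an (an K) (th m t, t)) =ᶠ[𝓝 t]
        fun t => t ^ (b - 1 / 5) * an K (th m t, t) + (sml (b - 2 / 5) (an (an K)) t +
          t ^ (b - 2 / 5) * an (an (dT K)) (th m t, t)) := by
      filter_upwards [lt_mem_nhds ht] with s hs using (D1 s hs).deriv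
    rw [this.deriv_eq]
    exact (D2 t ht).deriv
  refine Cl.congr _ _ _ (fun t ht => ?_) (Cl.smul _ (-1) _ (Cl.add _ _ _
    (cl_mono hs2 (by linarith)) (Cl.add _ _ _ (cl_mono hs1' (by linarith)) hs3)))
  rw [D3 t ht]
  ring

/-- one step -/
theorem step (hops : S_OPS) (b : ℝ) {K : E m → ℝ} (hK : Sm K) (h0 : ∀ q, av K q = 0) :
    Cl m (b - 2 / 5) (fun t => t ^ (b - 2 / 5) * an (an K) (th m t, t)) ∧
    Cl m (b - 1 / 5) (fun t => t ^ b * K (th m t, t) -
      deriv (deriv fun t => t ^ (b - 2 / 5) * an (an K) (th m t, t)) t) := by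
  obtain ⟨h1, h2⟩ := step2 hops b hK h0
  have hG : Sm (dT K) := (hops m K hK).2.1
  have hAG : Sm (an (dT K)) := (hops m _ hG).2.2.2.1
  have hAG0 : ∀ q, av (an (dT K)) q = 0 := (hops m _ hG).2.2.2.2.2.2.2.2.2.2.2
  refine ⟨h1, Cl.congr _ _ _ (fun t ht => ?_) (Cl.add _ _ _ (cl_mono h2 (by linarith))
    (Cl.smul _ (-2) _ (Cl.term _ (b - 1 / 5) _ le_rfl hAG hAG0)))⟩
  ring

/-- approximate solvability -/
def SolN (n : ℕ) (b : ℝ) (f : ℝ → ℝ) : Prop :=
  ∃ u : ℝ → ℝ, SyA (b - 2 / 5) u ∧ SyA (b - n / 5) (fun t => f t - deriv (deriv u) t)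

theorem deriv2_congr {f g : ℝ → ℝ} (e : ∀ t, 0 < t → f t = g t) {t : ℝ} (ht : 0 < t) :
    deriv (deriv f) t = deriv (deriv g) t := by
  have h1 : ∀ s : ℝ, 0 < s → deriv f s = deriv g s := by
    intro s hs
    refine Filter.EventuallyEq.deriv_eq ?_
    filter_upwards [lt_mem_nhds hs] with r hr using e r hr
  refine Filter.EventuallyEq.deriv_eq ?_
  filter_upwards [lt_mem_nhds ht] with r hr using h1 r hr

theorem deriv2_add {a b : ℝ} {u w : ℝ → ℝ} (hu : SyA a u) (hw : SyA b w) {t : ℝ} (ht : 0 < t) :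
    deriv (deriv fun t => u t + w t) t = deriv (deriv u) t + deriv (deriv w) t := by
  have h1 : deriv (fun t => u t + w t) =ᶠ[𝓝 t] fun t => deriv u t + deriv w t := by
    filter_upwards [lt_mem_nhds ht] with s hs
    exact deriv_fun_add (hu.diffAt hs) (hw.diffAt hs)
  rw [h1.deriv_eq]
  exact deriv_fun_add (hu.deriv.diffAt ht) (hw.deriv.diffAt ht)

theorem deriv2_mul (c : ℝ) (u : ℝ → ℝ) (t : ℝ) :
    deriv (deriv fun t => c * u t) t = c * deriv (deriv u) t := by
  have h1 : (deriv fun t => c * u t) = fun t => c * deriv u t := by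
    funext s
    exact deriv_const_mul_field c
  rw [h1, deriv_const_mul_field]

theorem solN_mono {n : ℕ} {b b' : ℝ} {f : ℝ → ℝ} (h : SolN n b f) (e : b ≤ b') : SolN n b' f := by
  obtain ⟨u, h1, h2⟩ := h
  exact ⟨u, h1.mono (by linarith), h2.mono (by linarith)⟩

theorem solN_cl (n : ℕ) {β : ℝ} {f : ℝ → ℝ} (h : Cl m β f)
    (hT : ∀ (b : ℝ) (K : E m → ℝ), Sm K → (∀ q, av K q = 0) →
      SolN n b (fun t => t ^ b * K (th m t, t))) : SolN n β f := by
  induction h with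
  | term b K hb hK h0 => exact solN_mono (hT b K hK h0) hb
  | smul c f _ ih =>
    obtain ⟨u, h1, h2⟩ := ih
    refine ⟨fun t => c * u t, h1.const_mul c, (h2.const_mul c).congr fun t ht => ?_⟩
    rw [deriv2_mul]
    ring
  | add f g _ _ ih1 ih2 =>
    obtain ⟨u, h1, h2⟩ := ih1
    obtain ⟨w, h3, h4⟩ := ih2
    refine ⟨fun t => u t + w t, h1.add h3, (h2.add h4).congr fun t ht => ?_⟩
    rw [deriv2_add h1 h3 ht]
    ring
  | congr f g hfg _ ih =>
    obtain ⟨u, h1, h2⟩ := ih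
    exact ⟨u, h1, h2.congr fun t ht => by rw [hfg t ht]⟩

theorem solN_term (hops : S_OPS) : ∀ (n : ℕ) (b : ℝ) (K : E m → ℝ), Sm K → (∀ q, av K q = 0) →
    SolN n b (fun t => t ^ b * K (th m t, t)) := by
  intro n
  induction n with
  | zero =>
    intro b K hK h0
    refine ⟨fun _ => 0, syA_zero, ?_⟩
    have h := cl_sy (Cl.term b b K le_rfl hK h0)
    refine (h.mono (by norm_num)).congr fun t _ => ?_
    simp
  | succ n ih =>
    intro b K hK h0
    obtain ⟨hv, hf⟩ := step hops b hK h0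
    obtain ⟨w, h1, h2⟩ := solN_cl n hf ih
    have hv' := cl_sy hv
    refine ⟨fun t => t ^ (b - 2 / 5) * an (an K) (th m t, t) + w t,
      hv'.add (h1.mono (by linarith)), (h2.mono ?_).congr fun t ht => ?_⟩
    · push_cast
      linarith
    · rw [deriv2_add hv' h1 ht]
      ring

end ZpL

open ZpL in
/-- the statement without hypotheses -/
theorem zp_ : S_ZP := by
  have hops : S_OPS := ES.ops
  intro m c F hF h0
  have hG : Sm (dT F) := (hops m F hF).2.1
  have hG0 : ∀ q, av (dT F) q = 0 := av_dT hops hF h0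
  have hAG : Sm (an (dT F)) := (hops m _ hG).2.2.2.1
  have hAG0 : ∀ q, av (an (dT F)) q = 0 := (hops m _ hG).2.2.2.2.2.2.2.2.2.2.2
  obtain ⟨hv, hf⟩ := step2 hops c hF h0
  obtain ⟨hv1, hf1⟩ := step hops (c - 1 / 5) hAG hAG0
  have e : c - 1 / 5 - 2 / 5 = c - 3 / 5 := by ring
  rw [e] at hv1 hf1
  have hs : Cl m (c - 2 / 5) (fun t => t ^ c * F (th m t, t) -
      deriv (deriv fun t => t ^ (c - 2 / 5) * an (an F) (th m t, t)) t +
      2 * deriv (deriv fun t => t ^ (c - 3 / 5) * an (an (an (dT F))) (th m t, t)) t) := by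
    refine Cl.congr _ _ _ (fun t ht => ?_) (Cl.add _ _ _ hf (Cl.smul _ (-2) _
      (cl_mono hf1 (by linarith))))
    ring
  obtain ⟨w, h1, h2⟩ := solN_cl 2 hs (solN_term hops 2)
  have hv' := cl_sy hv
  have hv1' := cl_sy hv1
  have hw : SyA (c - 4 / 5) w := h1.mono (by linarith)
  have hv2 : SyA (c - 3 / 5) (fun t => -2 * (t ^ (c - 3 / 5) *
      an (an (an (dT F))) (th m t, t))) := hv1'.const_mul (-2)
  have hq : SyA (c - 3 / 5) (fun t => -2 * (t ^ (c - 3 / 5) *
      an (an (an (dT F))) (th m t, t)) + w t) := hv2.add (hw.mono (by linarith))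
  refine ⟨fun t => t ^ (c - 2 / 5) * an (an F) (th m t, t) + (-2 * (t ^ (c - 3 / 5) *
      an (an (an (dT F))) (th m t, t)) + w t), hv'.add (hq.mono (by linarith)),
    hw.congr fun t _ => ?_, (h2.mono ?_).congr fun t ht => ?_⟩
  · ring
  · push_cast
    linarith
  · rw [deriv2_add hv' hq ht, deriv2_add hv2 hw ht, deriv2_mul]
    ring

/-- the statement in the form of the plan -/
theorem zp (_hcmp : S_CMP) : S_ZP := zp_

end Pool.Agent.Helper6K9.E3
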