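import Pool.Agent.Helper6K9.E3.MainP
import Pool.Agent.Helper6K9.E3.Zp
import Pool.Agent.Helper41K9.E3.Tri

set_option autoImplicit false

/-!
# The main theorem
-/

namespace Pool.Agent.Helper6K9.E3

open Set Filter Topology
open scoped ContDiff
open Pool.Agent.Helper6K9.ES (Q E Per dv dx lag)

theorem main {m : ℕ} (hm : 2 ≤ m) (A : Matrix (Fin (m + 1)) (Fin (m + 1)) ℝ) (hA : A.PosDef)
    (f₀ : E m → ℝ) (hf : ContDiff ℝ 2 f₀) (hp : Per f₀) (ε : ℝ) (hε : 0 < ε) :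
    ∃ f : E m → ℝ, ContDiff ℝ 2 f ∧ Per f ∧
      (∀ (j : ℕ) (p : E m), j ≤ 2 → ‖iteratedFDeriv ℝ j (fun q => f q - f₀ q) p‖ ≤ ε) ∧
      ∃ γ : ℝ → Q m, ((∀ t, DifferentiableAt ℝ γ t) ∧ ∀ (t : ℝ) (i : Fin (m + 1)),
        HasDerivAt (fun s => dv (lag A f) i (γ s) (deriv γ s) s)
          (dx (lag A f) i (γ t) (deriv γ t) t) t) ∧
        ∃ c : ℝ, 0 < c ∧ ∀ᶠ t : ℝ in atTop, c * t ^ (1 / 5 : ℝ) ≤ ‖deriv γ t‖ :=
  main_of (zp cmp) Helper41K9.E3T.tri hm A hA f₀ hf hp ε hε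

end Pool.Agent.Helper6K9.E3
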