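import Pool.Agent.Helper6K9.E3.Cmp
import Pool.Agent.Helper6K9.ES.Tay

set_option autoImplicit false

/-!
# [TAY] Taylor expansion along a curve
-/

namespace Pool.Agent.Helper6K9.E3

open Set Filter Topology
open scoped ContDiff
open Pool.Agent.Helper6K9.ES (Q E Per Sm dX dT av an res bmp Small Sol S_OPS)
open Pool.Agent.Helper6K9.ES.CmpL (per_bd fderiv_split)
open Pool.Agent.Helper6K9.ES.TayL (hasDerivAt_line mv0 mv1 fderiv_dir symm2 dX_dX dT_dX)

namespace TayL

open CmpL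

variable {m : ℕ}

/-- the bound of the sum of the components -/
theorem sum_bd {u : ℝ → Q m} {a : ℝ} (hu : ∀ i, SyA a fun t => u t i) :
    ∃ C : ℝ, 0 ≤ C ∧ ∀ t : ℝ, 1 ≤ t → ∑ i, |u t i| ≤ C * t ^ a := by
  choose C hC0 hC using fun i => (hu i).bd
  refine ⟨∑ i, C i, Finset.sum_nonneg fun i _ => hC0 i, fun t ht => ?_⟩
  rw [Finset.sum_mul]
  exact Finset.sum_le_sum fun i _ => hC i t ht

theorem deriv_add_curve {Y u : ℝ → Q m} (hY : Crv Y) (hu : ∀ i, SyA (-2 / 5) fun t => u t i)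
    (i : Fin (m + 1)) {t : ℝ} (ht : 0 < t) :
    deriv (fun s => (Y s + u s) i) t = deriv (fun s => Y s i) t + deriv (fun s => u s i) t :=
  deriv_fun_add (((hY i).1 t ht).differentiableAt (Ioi_mem_nhds ht)) ((hu i).diffAt ht)

/-- the derivative of `F(Y+u) - F(Y)` -/
theorem hasDerivAt_E0 {Y u : ℝ → Q m} (hY : Crv Y) (hu : ∀ i, SyA (-2 / 5) fun t => u t i)
    {F : E m → ℝ} (hF : Sm F) {t : ℝ} (ht : 0 < t) :
    HasDerivAt (fun t => F (Y t + u t, t) - F (Y t, t))
      (((∑ i, (dX i F (Y t + u t, t) - dX i F (Y t, t)) * deriv (fun s => Y s i) t) +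
        (dT F (Y t + u t, t) - dT F (Y t, t))) +
        ∑ i, dX i F (Y t + u t, t) * deriv (fun s => u s i) t) t := by
  have h1 := hasDerivAt_comp (crv_add hY hu) hF ht
  have h2 := hasDerivAt_comp hY hF ht
  have h3 := h1.sub h2
  refine (h3.congr_deriv ?_)
  have e : ∑ i, dX i F (Y t + u t, t) * deriv (fun s => (Y s + u s) i) t =
      ∑ i, (dX i F (Y t + u t, t) * deriv (fun s => Y s i) t +
        dX i F (Y t + u t, t) * deriv (fun s => u s i) t) :=
    Finset.sum_congr rfl fun i _ => by rw [deriv_add_curve hY hu i ht, mul_add]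
  rw [e, Finset.sum_add_distrib]
  have e2 : ∑ i, (dX i F (Y t + u t, t) - dX i F (Y t, t)) * deriv (fun s => Y s i) t =
      ∑ i, dX i F (Y t + u t, t) * deriv (fun s => Y s i) t -
        ∑ i, dX i F (Y t, t) * deriv (fun s => Y s i) t := by
    rw [← Finset.sum_sub_distrib]
    exact Finset.sum_congr rfl fun i _ => by ring
  rw [e2]
  ring

theorem sy_E0 (hops : S_OPS) {Y u : ℝ → Q m} (hY : Crv Y)
    (hu : ∀ i, SyA (-2 / 5) fun t => u t i) : ∀ (J : ℕ) (F : E m → ℝ), Sm F →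
    Sy J (-2 / 5) (fun t => F (Y t + u t, t) - F (Y t, t)) := by
  have key : ∀ F : E m → ℝ, Sm F → ∃ C : ℝ, ∀ t : ℝ, 1 ≤ t →
      |F (Y t + u t, t) - F (Y t, t)| ≤ C * t ^ (-2 / 5 : ℝ) := by
    intro F hF
    obtain ⟨C, hC0, hC⟩ := mv0 hops hF
    obtain ⟨D, _, hD⟩ := sum_bd hu
    refine ⟨C * D, fun t ht => (hC _ _ _).trans ?_⟩
    rw [mul_assoc]
    exact mul_le_mul_of_nonneg_left (hD t ht) hC0
  intro J
  induction J with
  | zero => exact fun F hF => key F hF
  | succ J ih =>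
    intro F hF
    obtain ⟨h1, h2, -⟩ := hops m F hF
    refine sy_succ_of_deriv (key F hF) (fun t ht => hasDerivAt_E0 hY hu hF ht) ?_
    refine sy_add J (sy_add J (sy_sum J _ fun i _ => ?_) (sy_mono J (by norm_num) (ih _ h2)))
      (sy_sum J _ fun i _ => ?_)
    · exact sy_mono J (by norm_num) (sy_mul J (ih _ (h1 i)) ((hY i).2 J))
    · have hc := sy_comp hops (crv_add hY hu) J _ (h1 i)
      exact sy_mono J (by norm_num) (sy_mul J hc ((hu i).deriv J))

/-- the derivative of the second remainder -/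
theorem hasDerivAt_E1 (hops : S_OPS) {Y u : ℝ → Q m} (hY : Crv Y)
    (hu : ∀ i, SyA (-2 / 5) fun t => u t i) {F : E m → ℝ} (hF : Sm F) {t : ℝ} (ht : 0 < t) :
    HasDerivAt (fun t => F (Y t + u t, t) - F (Y t, t) - ∑ i, dX i F (Y t, t) * u t i)
      (((∑ j, (dX j F (Y t + u t, t) - dX j F (Y t, t) - ∑ i, dX i (dX j F) (Y t, t) * u t i) *
          deriv (fun s => Y s j) t) +
        (dT F (Y t + u t, t) - dT F (Y t, t) - ∑ i, dX i (dT F) (Y t, t) * u t i)) +
        ∑ i, (dX i F (Y t + u t, t) - dX i F (Y t, t)) * deriv (fun s => u s i) t) t := by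
  have h1 := hasDerivAt_E0 hY hu hF ht
  have h2 : HasDerivAt (fun t => ∑ i, dX i F (Y t, t) * u t i)
      (∑ i, (((∑ j, dX j (dX i F) (Y t, t) * deriv (fun s => Y s j) t) +
        dT (dX i F) (Y t, t)) * u t i + dX i F (Y t, t) * deriv (fun s => u s i) t)) t := by
    refine HasDerivAt.fun_sum fun i _ => ?_
    exact (hasDerivAt_comp hY ((hops m F hF).1 i) ht).mul ((hu i).diffAt ht).hasDerivAt
  have h3 := h1.sub h2
  refine (h3.congr_deriv ?_)
  have e1 : ∑ j, (dX j F (Y t + u t, t) - dX j F (Y t, t) -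
      ∑ i, dX i (dX j F) (Y t, t) * u t i) * deriv (fun s => Y s j) t =
      ∑ j, (dX j F (Y t + u t, t) - dX j F (Y t, t)) * deriv (fun s => Y s j) t -
      ∑ i, (∑ j, dX j (dX i F) (Y t, t) * deriv (fun s => Y s j) t) * u t i := by
    have : ∑ i, (∑ j, dX j (dX i F) (Y t, t) * deriv (fun s => Y s j) t) * u t i =
        ∑ j, (∑ i, dX i (dX j F) (Y t, t) * u t i) * deriv (fun s => Y s j) t := by
      simp only [Finset.sum_mul]
      rw [Finset.sum_comm]
      refine Finset.sum_congr rfl fun j _ => Finset.sum_congr rfl fun i _ => ?_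
      rw [dX_dX hF j i]
      ring
    rw [this, ← Finset.sum_sub_distrib]
    exact Finset.sum_congr rfl fun j _ => by ring
  have e2 : ∑ i, (((∑ j, dX j (dX i F) (Y t, t) * deriv (fun s => Y s j) t) +
        dT (dX i F) (Y t, t)) * u t i + dX i F (Y t, t) * deriv (fun s => u s i) t) =
      (∑ i, (∑ j, dX j (dX i F) (Y t, t) * deriv (fun s => Y s j) t) * u t i) +
        (∑ i, dX i (dT F) (Y t, t) * u t i) +
        ∑ i, dX i F (Y t, t) * deriv (fun s => u s i) t := by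
    rw [← Finset.sum_add_distrib, ← Finset.sum_add_distrib]
    refine Finset.sum_congr rfl fun i _ => ?_
    rw [dT_dX hF i]
    ring
  have e3 : ∑ i, (dX i F (Y t + u t, t) - dX i F (Y t, t)) * deriv (fun s => u s i) t =
      ∑ i, dX i F (Y t + u t, t) * deriv (fun s => u s i) t -
        ∑ i, dX i F (Y t, t) * deriv (fun s => u s i) t := by
    rw [← Finset.sum_sub_distrib]
    exact Finset.sum_congr rfl fun i _ => by ring
  rw [e1, e2, e3]
  ring

theorem sy_E1 (hops : S_OPS) {Y u : ℝ → Q m} (hY : Crv Y)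
    (hu : ∀ i, SyA (-2 / 5) fun t => u t i) : ∀ (J : ℕ) (F : E m → ℝ), Sm F →
    Sy J (-4 / 5) (fun t => F (Y t + u t, t) - F (Y t, t) - ∑ i, dX i F (Y t, t) * u t i) := by
  have key : ∀ F : E m → ℝ, Sm F → ∃ C : ℝ, ∀ t : ℝ, 1 ≤ t →
      |F (Y t + u t, t) - F (Y t, t) - ∑ i, dX i F (Y t, t) * u t i| ≤ C * t ^ (-4 / 5 : ℝ) := by
    intro F hF
    obtain ⟨C, hC0, hC⟩ := mv1 hops hF
    obtain ⟨D, hD0, hD⟩ := sum_bd hu
    refine ⟨C * D ^ 2, fun t ht => (hC _ _ _).trans ?_⟩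
    rw [mul_assoc]
    refine mul_le_mul_of_nonneg_left ?_ hC0
    have h1 : (∑ i, |u t i|) ^ 2 ≤ (D * t ^ (-2 / 5 : ℝ)) ^ 2 :=
      pow_le_pow_left₀ (Finset.sum_nonneg fun i _ => abs_nonneg _) (hD t ht) 2
    refine h1.trans (le_of_eq ?_)
    rw [mul_pow, ← Real.rpow_natCast (t ^ (-2 / 5 : ℝ)), ← Real.rpow_mul (by linarith)]
    norm_num
  intro J
  induction J with
  | zero => exact fun F hF => key F hF
  | succ J ih =>
    intro F hF
    obtain ⟨h1, h2, -⟩ := hops m F hF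
    refine sy_succ_of_deriv (key F hF) (fun t ht => hasDerivAt_E1 hops hY hu hF ht) ?_
    refine sy_add J (sy_add J (sy_sum J _ fun i _ => ?_) (sy_mono J (by norm_num) (ih _ h2)))
      (sy_sum J _ fun i _ => ?_)
    · exact sy_mono J (by norm_num) (sy_mul J (ih _ (h1 i)) ((hY i).2 J))
    · exact sy_mono J (by norm_num) (sy_mul J (sy_E0 hops hY hu J _ (h1 i)) ((hu i).deriv J))

end TayL

theorem tay : S_TAY := fun _ _ _ _ hY hF hu =>
  ⟨fun J => TayL.sy_E0 ES.ops hY hu J _ hF, fun J => TayL.sy_E1 ES.ops hY hu J _ hF⟩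

end Pool.Agent.Helper6K9.E3
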