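import Pool.Agent.Helper6K9.E3.Stm

/-!
# TPN: trigonometric polynomials without resonances
-/

set_option autoImplicit false

namespace Pool.Agent.Helper6K9.E3

open Set Filter Topology
open scoped ContDiff
open Pool.Agent.Helper6K9.ES (Q E Per Sm dX dT av an res bmp Small Sol)

namespace TpnL

variable {m : ℕ}

/-- the scalar product -/
def dt (k : Fin (m + 1) → ℤ) (x : Q m) : ℝ := ∑ i, (k i : ℝ) * x i

lemma dt_add (k : Fin (m + 1) → ℤ) (x y : Q m) : dt k (x + y) = dt k x + dt k y := by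
  unfold dt
  rw [← Finset.sum_add_distrib]
  exact Finset.sum_congr rfl (fun i _ => by rw [Pi.add_apply, mul_add])

lemma dt_single (k : Fin (m + 1) → ℤ) (s : ℝ) (i : Fin (m + 1)) :
    dt k (s • Pi.single i (1 : ℝ)) = s * k i := by
  unfold dt
  rw [Finset.sum_eq_single i]
  · rw [Pi.smul_apply, Pi.single_eq_same, smul_eq_mul]; ring
  · intro j _ hj
    rw [Pi.smul_apply, Pi.single_eq_of_ne hj, smul_zero, mul_zero]
  · intro h
    exact absurd (Finset.mem_univ _) h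

lemma dt_int (k l : Fin (m + 1) → ℤ) : dt k (fun i => (l i : ℝ)) = ((∑ i, k i * l i : ℤ) : ℝ) := by
  unfold dt
  push_cast
  rfl

lemma dt_zero (x : Q m) : dt 0 x = 0 := by
  unfold dt
  exact Finset.sum_eq_zero (fun i _ => by simp)

lemma dt_add_left (k l : Fin (m + 1) → ℤ) (x : Q m) : dt (k + l) x = dt k x + dt l x := by
  unfold dt
  rw [← Finset.sum_add_distrib]
  exact Finset.sum_congr rfl (fun i _ => by rw [Pi.add_apply]; push_cast; ring)

lemma dt_sub_left (k l : Fin (m + 1) → ℤ) (x : Q m) : dt (k - l) x = dt k x - dt l x := by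
  unfold dt
  rw [← Finset.sum_sub_distrib]
  exact Finset.sum_congr rfl (fun i _ => by rw [Pi.sub_apply]; push_cast; ring)

lemma contDiff_dt (k : Fin (m + 1) → ℤ) : ContDiff ℝ ∞ (fun p : E m => dt k p.1) := by
  unfold dt
  fun_prop

/-- one term -/
noncomputable def tm (k : Fin (m + 1) → ℤ) (c d : ℝ → ℝ) (p : E m) : ℝ :=
  c p.2 * Real.cos (2 * Real.pi * dt k p.1) + d p.2 * Real.sin (2 * Real.pi * dt k p.1)

lemma contDiff_tm (k : Fin (m + 1) → ℤ) {c d : ℝ → ℝ} (hc : ContDiff ℝ ∞ c) (hd : ContDiff ℝ ∞ d) :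
    ContDiff ℝ ∞ (tm (m := m) k c d) := by
  have h1 : ContDiff ℝ ∞ (fun p : E m => 2 * Real.pi * dt k p.1) :=
    contDiff_const.mul (contDiff_dt k)
  exact ((hc.comp contDiff_snd).mul (Real.contDiff_cos.comp h1)).add
    ((hd.comp contDiff_snd).mul (Real.contDiff_sin.comp h1))

lemma tp_iff {S : Set (Fin (m + 1) → ℤ)} {F : E m → ℝ} : TP S F ↔
    ∃ (s : Finset (Fin (m + 1) → ℤ)) (c d : (Fin (m + 1) → ℤ) → ℝ → ℝ),
    (∀ k ∈ s, k ∈ S) ∧
    (∀ k, ContDiff ℝ ∞ (c k) ∧ ContDiff ℝ ∞ (d k) ∧ (∀ t, c k (t + 1) = c k t) ∧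
      ∀ t, d k (t + 1) = d k t) ∧ F = fun p => ∑ k ∈ s, tm k (c k) (d k) p := by
  constructor
  · rintro ⟨s, c, d, h1, h2, h3⟩
    exact ⟨s, c, d, h1, h2, funext h3⟩
  · rintro ⟨s, c, d, h1, h2, h3⟩
    exact ⟨s, c, d, h1, h2, fun p => congrFun h3 p⟩

lemma per_nat {c : ℝ → ℝ} (h : ∀ t, c (t + 1) = c t) (t : ℝ) (l : ℤ) : c (t + l) = c t := by
  have h1 : Function.Periodic c 1 := h
  have h2 := h1.int_mul l t
  rwa [mul_one] at h2

lemma tm_per (k : Fin (m + 1) → ℤ) {c d : ℝ → ℝ} (hc : ∀ t, c (t + 1) = c t)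
    (hd : ∀ t, d (t + 1) = d t) : Per (tm (m := m) k c d) := by
  intro p n l
  unfold tm
  dsimp only
  rw [per_nat hc, per_nat hd, dt_add, dt_int, mul_add]
  have h1 : 2 * Real.pi * dt k p.1 + 2 * Real.pi * ((∑ i, k i * n i : ℤ) : ℝ) =
      2 * Real.pi * dt k p.1 + ((∑ i, k i * n i : ℤ) : ℝ) * (2 * Real.pi) := by ring
  rw [h1, Real.cos_add_int_mul_two_pi, Real.sin_add_int_mul_two_pi]

lemma sm_of_tp {S : Set (Fin (m + 1) → ℤ)} {F : E m → ℝ} (h : TP S F) : Sm F := by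
  obtain ⟨s, c, d, h1, h2, rfl⟩ := tp_iff.mp h
  constructor
  · exact ContDiff.sum (fun k _ => contDiff_tm k (h2 k).1 (h2 k).2.1)
  · intro p n l
    exact Finset.sum_congr rfl (fun k _ => tm_per k (h2 k).2.2.1 (h2 k).2.2.2 p n l)

lemma differentiable_tm (k : Fin (m + 1) → ℤ) {c d : ℝ → ℝ} (hc : ContDiff ℝ ∞ c)
    (hd : ContDiff ℝ ∞ d) : Differentiable ℝ (tm (m := m) k c d) :=
  (contDiff_tm k hc hd).differentiable (by norm_num)

/-- the derivative in the direction `x i` -/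
lemma dX_tm (k : Fin (m + 1) → ℤ) {c d : ℝ → ℝ} (hc : ContDiff ℝ ∞ c) (hd : ContDiff ℝ ∞ d)
    (i : Fin (m + 1)) (p : E m) : fderiv ℝ (tm (m := m) k c d) p (Pi.single i 1, 0) =
      tm k (fun t => 2 * Real.pi * k i * d t) (fun t => -(2 * Real.pi * k i) * c t) p := by
  have h1 := (differentiable_tm k hc hd p).lineDeriv_eq_fderiv (v := ((Pi.single i 1, 0) : E m))
  rw [← h1]
  have h2 : ∀ s : ℝ, tm k c d (p + s • ((Pi.single i 1, 0) : E m)) =
      c p.2 * Real.cos (2 * Real.pi * dt k p.1 + s * (2 * Real.pi * k i)) +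
        d p.2 * Real.sin (2 * Real.pi * dt k p.1 + s * (2 * Real.pi * k i)) := by
    intro s
    unfold tm
    have h3 : (p + s • ((Pi.single i 1, 0) : E m)).2 = p.2 := by simp
    have h4 : (p + s • ((Pi.single i 1, 0) : E m)).1 = p.1 + s • Pi.single i (1 : ℝ) := by simp
    rw [h3, h4, dt_add, dt_single]
    ring_nf
  unfold lineDeriv
  rw [funext h2]
  have h5 : HasDerivAt (fun s : ℝ => 2 * Real.pi * dt k p.1 + s * (2 * Real.pi * k i))
      (2 * Real.pi * k i) 0 := by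
    have h6 := ((hasDerivAt_id (0 : ℝ)).mul_const (2 * Real.pi * k i)).const_add
      (2 * Real.pi * dt k p.1)
    simpa using h6
  have h7 := ((h5.cos).const_mul (c p.2)).add ((h5.sin).const_mul (d p.2))
  refine Eq.trans h7.deriv ?_
  unfold tm
  simp only [zero_mul, add_zero]
  ring

/-- the derivative in the direction of the time -/
lemma dT_tm (k : Fin (m + 1) → ℤ) {c d : ℝ → ℝ} (hc : ContDiff ℝ ∞ c) (hd : ContDiff ℝ ∞ d)
    (p : E m) : fderiv ℝ (tm (m := m) k c d) p (0, 1) = tm k (deriv c) (deriv d) p := by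
  have h1 := (differentiable_tm k hc hd p).lineDeriv_eq_fderiv (v := ((0, 1) : E m))
  rw [← h1]
  have h2 : ∀ s : ℝ, tm k c d (p + s • ((0, 1) : E m)) =
      c (p.2 + s) * Real.cos (2 * Real.pi * dt k p.1) +
        d (p.2 + s) * Real.sin (2 * Real.pi * dt k p.1) := by
    intro s
    unfold tm
    have h3 : (p + s • ((0, 1) : E m)).2 = p.2 + s := by simp
    have h4 : (p + s • ((0, 1) : E m)).1 = p.1 := by simp
    rw [h3, h4]
  unfold lineDeriv
  rw [funext h2]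
  have hc1 : HasDerivAt c (deriv c (p.2 + 0)) (p.2 + 0) :=
    ((hc.differentiable (by norm_num)) _).hasDerivAt
  have hd1 : HasDerivAt d (deriv d (p.2 + 0)) (p.2 + 0) :=
    ((hd.differentiable (by norm_num)) _).hasDerivAt
  have hc2 := hc1.comp_const_add p.2 0
  have hd2 := hd1.comp_const_add p.2 0
  have h7 := (hc2.mul_const (Real.cos (2 * Real.pi * dt k p.1))).add
    (hd2.mul_const (Real.sin (2 * Real.pi * dt k p.1)))
  refine Eq.trans h7.deriv ?_
  unfold tm
  simp only [add_zero]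

/-! ### integrals -/

lemma hd_lin (α β s : ℝ) : HasDerivAt (fun s : ℝ => α + s * β) β s := by
  have h := ((hasDerivAt_id s).mul_const β).const_add α
  simpa using h

lemma int_cos {α β : ℝ} (hβ : β ≠ 0) (h1 : Real.sin (α + β) = Real.sin α) :
    ∫ s in (0 : ℝ)..1, Real.cos (α + s * β) = 0 := by
  have h2 : ∀ s ∈ uIcc (0 : ℝ) 1, HasDerivAt (fun s : ℝ => Real.sin (α + s * β) / β)
      (Real.cos (α + s * β)) s := by
    intro s _
    have h3 := ((hd_lin α β s).sin).div_const β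
    rwa [mul_div_assoc, div_self hβ, mul_one] at h3
  rw [intervalIntegral.integral_eq_sub_of_hasDerivAt h2 (by
    apply Continuous.intervalIntegrable; fun_prop)]
  simp only [one_mul, zero_mul, add_zero, h1, sub_self]

lemma int_sin {α β : ℝ} (hβ : β ≠ 0) (h1 : Real.cos (α + β) = Real.cos α) :
    ∫ s in (0 : ℝ)..1, Real.sin (α + s * β) = 0 := by
  have h2 : ∀ s ∈ uIcc (0 : ℝ) 1, HasDerivAt (fun s : ℝ => -Real.cos (α + s * β) / β)
      (Real.sin (α + s * β)) s := by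
    intro s _
    have h3 := (((hd_lin α β s).cos).neg).div_const β
    refine HasDerivAt.congr_deriv h3 ?_
    field_simp
  rw [intervalIntegral.integral_eq_sub_of_hasDerivAt h2 (by
    apply Continuous.intervalIntegrable; fun_prop)]
  simp only [one_mul, zero_mul, add_zero, h1, sub_self]

lemma int_s_cos {α β : ℝ} (hβ : β ≠ 0) (h1 : Real.sin (α + β) = Real.sin α)
    (h2 : Real.cos (α + β) = Real.cos α) :
    ∫ s in (0 : ℝ)..1, (s - 1 / 2) * Real.cos (α + s * β) = Real.sin α / β := by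
  have h3 : ∀ s ∈ uIcc (0 : ℝ) 1, HasDerivAt
      (fun s : ℝ => (s - 1 / 2) * (Real.sin (α + s * β) / β) + Real.cos (α + s * β) / β / β)
      ((s - 1 / 2) * Real.cos (α + s * β)) s := by
    intro s _
    have h4 := ((hd_lin α β s).sin).div_const β
    have h5 := (((hd_lin α β s).cos).div_const β).div_const β
    have h6 := (((hasDerivAt_id s).sub_const (1 / 2 : ℝ)).mul h4).add h5
    refine HasDerivAt.congr_deriv h6 ?_
    simp only [id]
    field_simp
    ring
  rw [intervalIntegral.integral_eq_sub_of_hasDerivAt h3 (by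
    apply Continuous.intervalIntegrable; fun_prop)]
  simp only [one_mul, zero_mul, add_zero, h1, h2]
  ring

lemma int_s_sin {α β : ℝ} (hβ : β ≠ 0) (h1 : Real.sin (α + β) = Real.sin α)
    (h2 : Real.cos (α + β) = Real.cos α) :
    ∫ s in (0 : ℝ)..1, (s - 1 / 2) * Real.sin (α + s * β) = -Real.cos α / β := by
  have h3 : ∀ s ∈ uIcc (0 : ℝ) 1, HasDerivAt
      (fun s : ℝ => (s - 1 / 2) * (-Real.cos (α + s * β) / β) + Real.sin (α + s * β) / β / β)
      ((s - 1 / 2) * Real.sin (α + s * β)) s := by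
    intro s _
    have h4 := (((hd_lin α β s).cos).neg).div_const β
    have h5 := (((hd_lin α β s).sin).div_const β).div_const β
    have h6 := (((hasDerivAt_id s).sub_const (1 / 2 : ℝ)).mul h4).add h5
    refine HasDerivAt.congr_deriv h6 ?_
    simp only [id, Pi.neg_apply]
    field_simp
    ring
  rw [intervalIntegral.integral_eq_sub_of_hasDerivAt h3 (by
    apply Continuous.intervalIntegrable; fun_prop)]
  simp only [one_mul, zero_mul, add_zero, h1, h2]
  ring

lemma per_shift (k : Fin (m + 1) → ℤ) (α : ℝ) :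
    Real.sin (α + 2 * Real.pi * k 0) = Real.sin α ∧ Real.cos (α + 2 * Real.pi * k 0) = Real.cos α := by
  have h : α + 2 * Real.pi * k 0 = α + (k 0 : ℤ) * (2 * Real.pi) := by ring
  rw [h, Real.sin_add_int_mul_two_pi, Real.cos_add_int_mul_two_pi]
  exact ⟨rfl, rfl⟩

lemma tm_shift (k : Fin (m + 1) → ℤ) (c d : ℝ → ℝ) (p : E m) (s : ℝ) :
    tm k c d (p.1 + s • Pi.single (0 : Fin (m + 1)) (1 : ℝ), p.2) =
      c p.2 * Real.cos (2 * Real.pi * dt k p.1 + s * (2 * Real.pi * k 0)) +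
        d p.2 * Real.sin (2 * Real.pi * dt k p.1 + s * (2 * Real.pi * k 0)) := by
  unfold tm
  dsimp only
  rw [dt_add, dt_single]
  ring_nf

lemma beta_ne {k : Fin (m + 1) → ℤ} (hk : k 0 ≠ 0) : 2 * Real.pi * (k 0 : ℝ) ≠ 0 := by
  have h1 : (k 0 : ℝ) ≠ 0 := by exact_mod_cast hk
  have h2 := Real.pi_pos
  positivity

lemma an_tm {k : Fin (m + 1) → ℤ} (hk : k 0 ≠ 0) (c d : ℝ → ℝ) (p : E m) :
    an (tm k c d) p = tm k (fun t => -(d t) / (2 * Real.pi * k 0))
      (fun t => c t / (2 * Real.pi * k 0)) p := by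
  unfold ES.an
  have hβ := beta_ne hk
  obtain ⟨h1, h2⟩ := per_shift k (2 * Real.pi * dt k p.1)
  have h3 : ∀ s : ℝ, (s - 1 / 2) * tm k c d (p.1 + s • Pi.single (0 : Fin (m + 1)) (1 : ℝ), p.2) =
      c p.2 * ((s - 1 / 2) * Real.cos (2 * Real.pi * dt k p.1 + s * (2 * Real.pi * k 0))) +
      d p.2 * ((s - 1 / 2) * Real.sin (2 * Real.pi * dt k p.1 + s * (2 * Real.pi * k 0))) := by
    intro s
    rw [tm_shift]; ring
  rw [intervalIntegral.integral_congr (fun s _ => h3 s), intervalIntegral.integral_add (by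
    apply Continuous.intervalIntegrable; fun_prop) (by
    apply Continuous.intervalIntegrable; fun_prop), intervalIntegral.integral_const_mul,
    intervalIntegral.integral_const_mul, int_s_cos hβ h1 h2, int_s_sin hβ h1 h2]
  unfold tm
  ring

lemma av_tm {k : Fin (m + 1) → ℤ} (hk : k ≠ 0 → k 0 ≠ 0) (c d : ℝ → ℝ) (p : E m) :
    av (tm k c d) p = if k = 0 then c p.2 else 0 := by
  unfold ES.av
  rw [intervalIntegral.integral_congr (fun s _ => tm_shift k c d p s)]
  split_ifs with h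
  · subst h
    simp [dt_zero]
  · have hβ := beta_ne (hk h)
    obtain ⟨h1, h2⟩ := per_shift k (2 * Real.pi * dt k p.1)
    rw [intervalIntegral.integral_add (by
      apply Continuous.intervalIntegrable; fun_prop) (by
      apply Continuous.intervalIntegrable; fun_prop), intervalIntegral.integral_const_mul,
      intervalIntegral.integral_const_mul, int_cos hβ h1, int_sin hβ h2]
    ring

/-! ### the class is stable -/

lemma fderiv_sum_tm (s : Finset (Fin (m + 1) → ℤ)) (c d : (Fin (m + 1) → ℤ) → ℝ → ℝ)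
    (h : ∀ k, ContDiff ℝ ∞ (c k) ∧ ContDiff ℝ ∞ (d k) ∧ (∀ t, c k (t + 1) = c k t) ∧
      ∀ t, d k (t + 1) = d k t) (p v : E m) :
    fderiv ℝ (fun p : E m => ∑ k ∈ s, tm k (c k) (d k) p) p v =
      ∑ k ∈ s, fderiv ℝ (tm k (c k) (d k)) p v := by
  rw [fderiv_fun_sum (fun k _ => differentiable_tm k (h k).1 (h k).2.1 p)]
  rw [sum_apply]

lemma tp_dX {S : Set (Fin (m + 1) → ℤ)} {F : E m → ℝ} (h : TP S F) (i : Fin (m + 1)) :
    TP {k | k ∈ S ∧ k ≠ 0} (dX i F) := by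
  classical
  obtain ⟨s, c, d, h1, h2, rfl⟩ := tp_iff.mp h
  refine tp_iff.mpr ⟨s.filter (fun k => k ≠ 0), fun k t => 2 * Real.pi * k i * d k t,
    fun k t => -(2 * Real.pi * k i) * c k t, ?_, ?_, ?_⟩
  · intro k hk
    rw [Finset.mem_filter] at hk
    exact ⟨h1 k hk.1, hk.2⟩
  · intro k
    refine ⟨contDiff_const.mul (h2 k).2.1, contDiff_const.mul (h2 k).1, fun t => ?_, fun t => ?_⟩
    · dsimp only
      rw [(h2 k).2.2.2 t]
    · dsimp only
      rw [(h2 k).2.2.1 t]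
  · funext p
    unfold ES.dX
    rw [fderiv_sum_tm s c d h2, Finset.sum_filter]
    refine Finset.sum_congr rfl (fun k _ => ?_)
    rw [dX_tm k (h2 k).1 (h2 k).2.1 i p]
    split_ifs with hk
    · rfl
    · push Not at hk
      subst hk
      unfold tm
      simp

lemma deriv_per {c : ℝ → ℝ} (h : ∀ t, c (t + 1) = c t) (t : ℝ) : deriv c (t + 1) = deriv c t := by
  rw [← deriv_comp_add_const c 1 t]
  congr 1
  exact funext h

lemma tp_dT {S : Set (Fin (m + 1) → ℤ)} {F : E m → ℝ} (h : TP S F) : TP S (dT F) := by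
  obtain ⟨s, c, d, h1, h2, rfl⟩ := tp_iff.mp h
  refine tp_iff.mpr ⟨s, fun k => deriv (c k), fun k => deriv (d k), h1, ?_, ?_⟩
  · intro k
    have hd : ∀ f : ℝ → ℝ, ContDiff ℝ ∞ f → ContDiff ℝ ∞ (deriv f) := by
      intro f hf
      exact ((contDiff_infty_iff_deriv).mp hf).2
    exact ⟨hd _ (h2 k).1, hd _ (h2 k).2.1, deriv_per (h2 k).2.2.1, deriv_per (h2 k).2.2.2⟩
  · funext p
    unfold ES.dT
    rw [fderiv_sum_tm s c d h2]
    exact Finset.sum_congr rfl (fun k _ => dT_tm k (h2 k).1 (h2 k).2.1 p)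

lemma cont_line {k : Fin (m + 1) → ℤ} (c d : ℝ → ℝ) (p : E m) :
    Continuous (fun s : ℝ => tm k c d (p.1 + s • Pi.single (0 : Fin (m + 1)) (1 : ℝ), p.2)) := by
  rw [funext (tm_shift k c d p)]
  fun_prop

lemma tp_an {S : Set (Fin (m + 1) → ℤ)} (hS : ∀ k ∈ S, k 0 ≠ 0) {F : E m → ℝ} (h : TP S F) :
    TP S (an F) := by
  obtain ⟨s, c, d, h1, h2, rfl⟩ := tp_iff.mp h
  refine tp_iff.mpr ⟨s, fun k t => -(d k t) / (2 * Real.pi * k 0),
    fun k t => c k t / (2 * Real.pi * k 0), h1, ?_, ?_⟩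
  · intro k
    refine ⟨(h2 k).2.1.neg.div_const _, (h2 k).1.div_const _, fun t => ?_, fun t => ?_⟩
    · dsimp only
      rw [(h2 k).2.2.2 t]
    · dsimp only
      rw [(h2 k).2.2.1 t]
  · funext p
    have h3 : an (fun p : E m => ∑ k ∈ s, tm k (c k) (d k) p) p = ∑ k ∈ s, an (tm k (c k) (d k)) p := by
      unfold ES.an
      rw [← intervalIntegral.integral_finsetSum]
      · exact intervalIntegral.integral_congr (fun s _ => Finset.mul_sum _ _ _)
      · intro k _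
        exact ((continuous_id.sub continuous_const).mul (cont_line (c k) (d k) p)).intervalIntegrable _ _
    rw [h3]
    exact Finset.sum_congr rfl (fun k hk => an_tm (hS k (h1 k hk)) (c k) (d k) p)

lemma tp_mono {S S' : Set (Fin (m + 1) → ℤ)} (hS : S ⊆ S') {F : E m → ℝ} (h : TP S F) : TP S' F := by
  obtain ⟨s, c, d, h1, h2, h3⟩ := h
  exact ⟨s, c, d, fun k hk => hS (h1 k hk), h2, h3⟩

/-- the average of a sum of terms -/
lemma av_sum {ι : Type} (J : Finset ι) (κ : ι → Fin (m + 1) → ℤ) (a b : ι → ℝ → ℝ)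
    (hκ : ∀ j ∈ J, κ j ≠ 0 → κ j 0 ≠ 0) (p : E m) :
    av (fun p : E m => ∑ j ∈ J, tm (κ j) (a j) (b j) p) p =
      ∑ j ∈ J, if κ j = 0 then a j p.2 else 0 := by
  have h3 : av (fun p : E m => ∑ j ∈ J, tm (κ j) (a j) (b j) p) p =
      ∑ j ∈ J, av (tm (κ j) (a j) (b j)) p := by
    unfold ES.av
    rw [← intervalIntegral.integral_finsetSum]
    intro k _
    exact (cont_line (a k) (b k) p).intervalIntegrable _ _
  rw [h3]
  exact Finset.sum_congr rfl (fun j hj => av_tm (hκ j hj) (a j) (b j) p)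

/-- the product of two terms -/
lemma tm_mul (k l : Fin (m + 1) → ℤ) (c d c' d' : ℝ → ℝ) (p : E m) :
    tm k c d p * tm l c' d' p =
      tm (k - l) (fun t => (c t * c' t + d t * d' t) / 2) (fun t => (d t * c' t - c t * d' t) / 2) p +
      tm (k + l) (fun t => (c t * c' t - d t * d' t) / 2) (fun t => (d t * c' t + c t * d' t) / 2) p := by
  unfold tm
  have e1 : 2 * Real.pi * (dt k p.1 + dt l p.1) = 2 * Real.pi * dt k p.1 + 2 * Real.pi * dt l p.1 := by
    ring
  have e2 : 2 * Real.pi * (dt k p.1 - dt l p.1) = 2 * Real.pi * dt k p.1 - 2 * Real.pi * dt l p.1 := by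
    ring
  rw [dt_add_left, dt_sub_left, e1, e2, Real.cos_add, Real.sin_add, Real.cos_sub, Real.sin_sub]
  ring

lemma av_prod {S : Set (Fin (m + 1) → ℤ)}
    (hS : ∀ k ∈ S, ∀ l ∈ S, (k + l ≠ 0 → (k + l) 0 ≠ 0) ∧ (k - l ≠ 0 → (k - l) 0 ≠ 0))
    {F G : E m → ℝ} (hF : TP S F) (hG : TP S G) (p q : E m) (hpq : p.2 = q.2) :
    av (fun x => F x * G x) p = av (fun x => F x * G x) q := by
  obtain ⟨s, c, d, h1, h2, rfl⟩ := tp_iff.mp hF
  obtain ⟨s', c', d', h1', h2', rfl⟩ := tp_iff.mp hG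
  have h3 : (fun x : E m => (∑ k ∈ s, tm k (c k) (d k) x) * ∑ k ∈ s', tm k (c' k) (d' k) x) =
      fun x => ∑ j ∈ (s ×ˢ s') ×ˢ (Finset.univ : Finset Bool),
        tm (if j.2 then j.1.1 + j.1.2 else j.1.1 - j.1.2)
          (fun t => if j.2 then (c j.1.1 t * c' j.1.2 t - d j.1.1 t * d' j.1.2 t) / 2
            else (c j.1.1 t * c' j.1.2 t + d j.1.1 t * d' j.1.2 t) / 2)
          (fun t => if j.2 then (d j.1.1 t * c' j.1.2 t + c j.1.1 t * d' j.1.2 t) / 2
            else (d j.1.1 t * c' j.1.2 t - c j.1.1 t * d' j.1.2 t) / 2) x := by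
    funext x
    have h4 : ∑ k ∈ s, ∑ l ∈ s', tm k (c k) (d k) x * tm l (c' l) (d' l) x =
        ∑ j ∈ s ×ˢ s', tm j.1 (c j.1) (d j.1) x * tm j.2 (c' j.2) (d' j.2) x :=
      (Finset.sum_product s s' (fun j => tm j.1 (c j.1) (d j.1) x * tm j.2 (c' j.2) (d' j.2) x)).symm
    rw [Finset.sum_mul_sum, h4]
    conv_rhs => rw [Finset.sum_product]
    refine Finset.sum_congr rfl (fun j _ => ?_)
    rw [Fintype.sum_bool, tm_mul, add_comm]
    rfl
  rw [h3, av_sum, av_sum, hpq]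
  · rintro ⟨⟨k, l⟩, b⟩ hj
    rw [Finset.mem_product, Finset.mem_product] at hj
    have hk := h1 k hj.1.1
    have hl := h1' l hj.1.2
    cases b
    · exact (hS k hk l hl).2
    · exact (hS k hk l hl).1
  · rintro ⟨⟨k, l⟩, b⟩ hj
    rw [Finset.mem_product, Finset.mem_product] at hj
    have hk := h1 k hj.1.1
    have hl := h1' l hj.1.2
    cases b
    · exact (hS k hk l hl).2
    · exact (hS k hk l hl).1

end TpnL

open TpnL in
theorem tpn : S_TPN := by
  intro m S h hh hS1 hS2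
  have hS1' : ∀ k ∈ {k | k ∈ S ∧ k ≠ 0}, k 0 ≠ 0 := fun k hk => hS1 k hk.1 hk.2
  have hsub : {k | k ∈ {k | k ∈ S ∧ k ≠ 0} ∧ k ≠ 0} ⊆ {k | k ∈ S ∧ k ≠ 0} := fun k hk => hk.1
  have hgen : ∀ F, Gen h F → TP {k | k ∈ S ∧ k ≠ 0} F := by
    intro F hF
    induction hF with
    | base i => exact tp_dX hh i
    | dx i _ ih => exact tp_mono hsub (tp_dX ih i)
    | dt _ ih => exact tp_dT ih
    | an _ ih => exact tp_an hS1' ih
  refine ⟨sm_of_tp hh, fun i p => ?_, fun F G hF hG p q hpq => ?_⟩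
  · obtain ⟨s, c, d, h1, h2, h3⟩ := tp_iff.mp (tp_dX hh i)
    rw [h3, av_sum s (fun k => k) c d (fun k hk _ => hS1' k (h1 k hk))]
    exact Finset.sum_eq_zero (fun k hk => if_neg (h1 k hk).2)
  · refine av_prod (S := {k | k ∈ S ∧ k ≠ 0}) ?_ (hgen F hF) (hgen G hG) p q hpq
    intro k hk l hl
    exact hS2 k hk.1 l hl.1

end Pool.Agent.Helper6K9.E3
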