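import Pool.Agent.Helper6K9.E3.Ct
import Pool.Agent.Helper6K9.E3.Red
import Pool.Agent.Helper6K9.E3.Cmp
import Pool.Agent.Helper6K9.E3.Tay
import Pool.Agent.Helper6K9.E3.Tpn
import Pool.Agent.Helper6K9.E3.Id
import Pool.Agent.Helper87K9.E3.Lin
import Pool.Agent.Helper87K9.E3.Sep
import Pool.Agent.Helper87K9.E3.Apx
import Pool.Agent.Helper88K9.E3.Dis
import Pool.Agent.Helper6K9.ES.Conv

set_option autoImplicit false

/-!
# The main theorem, from the last two parts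
-/

namespace Pool.Agent.Helper6K9.E3

open Set Filter Topology
open scoped ContDiff
open Pool.Agent.Helper6K9.ES (Q E Per dv dx lag orbit_of_sol small_iter)

theorem fin_of (hz : S_ZP) (ht : S_TRI) : S_FIN :=
  red ht tpn Helper87K9.E3.lin_ (ct (Helper88K9.E3.dis Helper87K9.E3.sep)
    (Helper87K9.E3.apx cmp tay hz id_))

theorem main_of (hz : S_ZP) (ht : S_TRI)
    {m : ℕ} (hm : 2 ≤ m) (A : Matrix (Fin (m + 1)) (Fin (m + 1)) ℝ) (hA : A.PosDef)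
    (f₀ : E m → ℝ) (hf : ContDiff ℝ 2 f₀) (hp : Per f₀) (ε : ℝ) (hε : 0 < ε) :
    ∃ f : E m → ℝ, ContDiff ℝ 2 f ∧ Per f ∧
      (∀ (j : ℕ) (p : E m), j ≤ 2 → ‖iteratedFDeriv ℝ j (fun q => f q - f₀ q) p‖ ≤ ε) ∧
      ∃ γ : ℝ → Q m, ((∀ t, DifferentiableAt ℝ γ t) ∧ ∀ (t : ℝ) (i : Fin (m + 1)),
        HasDerivAt (fun s => dv (lag A f) i (γ s) (deriv γ s) s)
          (dx (lag A f) i (γ t) (deriv γ t) t) t) ∧
        ∃ c : ℝ, 0 < c ∧ ∀ᶠ t : ℝ in atTop, c * t ^ (1 / 5 : ℝ) ≤ ‖deriv γ t‖ := by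
  obtain ⟨f, γ, h1, h2, h3, h4, c, hc, h5⟩ := fin_of hz ht m hm A f₀ ε hε hA hf hp
  have hsym : A.IsSymm := by
    have := hA.isHermitian.eq
    rwa [Matrix.conjTranspose_eq_transpose_of_trivial] at this
  have h6 := orbit_of_sol A hsym f (h1.differentiable (by norm_num)) γ h4
  refine ⟨f, h1, h2, fun j p hj => small_iter h3 p j hj, γ, h6, c, hc, ?_⟩
  filter_upwards [h5] with t ht
  obtain ⟨i, hi⟩ := ht
  have e1 : deriv γ t i = deriv (fun s => γ s i) t :=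
    ((hasDerivAt_pi.1 (h6.1 t).hasDerivAt) i).deriv.symm
  rw [← e1] at hi
  exact hi.trans (norm_le_pi_norm (deriv γ t) i)

end Pool.Agent.Helper6K9.E3
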