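import Pool.Agent.Helper6K9.E3.Ct2
import Pool.Agent.Helper6K9.ES.Red
import Pool.Agent.Helper6K9.ES.Mol

set_option autoImplicit false

/-!
# Orbits which escape to infinity on flat tori: reduction to adapted coordinates
-/

namespace Pool.Agent.Helper6K9.E3

open Set Filter Topology
open scoped ContDiff
open Pool.Agent.Helper6K9.ES (Q E Per Sm dX dT av an res bmp Small Sol)
open Pool.Agent.Helper6K9.ES.RedL

/-- the theorem, with an explicit constant -/
def S_FIN2 : Prop := ∀ (m : ℕ), 2 ≤ m → ∀ (A : Matrix (Fin (m + 1)) (Fin (m + 1)) ℝ)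
  (f₀ : E m → ℝ) (ε : ℝ), 0 < ε → A.PosDef → ContDiff ℝ 2 f₀ → Per f₀ →
  ∃ (f : E m → ℝ) (γ : ℝ → Q m), ContDiff ℝ 2 f ∧ Per f ∧ Small (fun p => f p - f₀ p) ε ∧
    Sol A f γ univ ∧
    ∀ᶠ t : ℝ in atTop, ∃ i, 3 / 4 * t ^ (1 / 5 : ℝ) ≤ |deriv (fun s => γ s i) t|

theorem red2 : S_TRI → S_TPN → S_LIN → S_CT2 → S_FIN2 := by
  intro htri htpn hlin hct m hm A f₀ ε hε hA hf₀ hper
  obtain ⟨h, hh, hsm⟩ := ES.mol m f₀ (ε / 3) (by positivity) hf₀ hper
  obtain ⟨N, h₂, hTP, hsm₂⟩ := htri m h (ε / 3) (by positivity) hh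
  obtain ⟨M, Fr, hTP2, hFr1, hFr2⟩ := hlin m N h₂ hTP
  have hN := htpn m Fr _ hTP2 hFr1 hFr2
  set S : Matrix (Fin (m + 1)) (Fin (m + 1)) ℤ := SM m M with hS
  have hdet : IsUnit S.det := by rw [hS, SM_det]; exact isUnit_one
  set R : Matrix (Fin (m + 1)) (Fin (m + 1)) ℤ := S⁻¹ with hR
  have hSR : S * R = 1 := Matrix.mul_nonsing_inv S hdet
  have hRS : R * S = 1 := Matrix.nonsing_inv_mul S hdet
  set Sr : Matrix (Fin (m + 1)) (Fin (m + 1)) ℝ := S.map (Int.cast : ℤ → ℝ) with hSr
  set Rr : Matrix (Fin (m + 1)) (Fin (m + 1)) ℝ := R.map (Int.cast : ℤ → ℝ) with hRr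
  have hSRr : Sr * Rr = 1 := by
    have h1 : Sr * Rr = (S * R).map (Int.castRingHom ℝ) :=
      (Matrix.map_mul (L := S) (M := R) (f := Int.castRingHom ℝ)).symm
    rw [h1, hSR]
    exact Matrix.map_one _ (map_zero _) (map_one _)
  have hRSr : Rr * Sr = 1 := by
    have h1 : Rr * Sr = (R * S).map (Int.castRingHom ℝ) :=
      (Matrix.map_mul (L := R) (M := S) (f := Int.castRingHom ℝ)).symm
    rw [h1, hRS]
    exact Matrix.map_one _ (map_zero _) (map_one _)
  have hcancel : ∀ p : E m, lin Sr (lin Rr p) = p := by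
    intro p
    simp [lin_apply, Matrix.mulVec_mulVec, hSRr]
  have hcancel' : ∀ p : E m, lin Rr (lin Sr p) = p := by
    intro p
    simp [lin_apply, Matrix.mulVec_mulVec, hRSr]
  have hN' : Nice (fun p => h₂ (lin Sr p)) := hN
  have hh₂ : Sm h₂ := by
    have e : h₂ = fun p => (fun p => h₂ (lin Sr p)) (lin Rr p) := by
      funext p
      simp only [hcancel]
    rw [e]
    exact ⟨hN'.1.1.comp (lin Rr).contDiff, per_lin hN'.1.2 R⟩
  -- the function in the adapted coordinates
  obtain ⟨g', γ', hg', hgper, hgsm, hsol, hgrow⟩ :=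
    hct m hm (Sr.transpose * A * Sr) (fun p => h₂ (lin Sr p))
      (ε / 3 / (1 + ‖lin Rr‖) ^ 2) (by positivity) (by
        have hinj : Function.Injective Sr.mulVec := by
          intro x y hxy
          have := congrArg Rr.mulVec hxy
          simpa [Matrix.mulVec_mulVec, hRSr] using this
        have := hA.conjTranspose_mul_mul_same hinj
        rwa [Matrix.conjTranspose_eq_transpose_of_trivial] at this)
      hN'
  have hgC : ContDiff ℝ 2 fun p => g' (lin Rr p) := hg'.comp (lin Rr).contDiff
  have hh₂C : ContDiff ℝ 2 h₂ := by exact_mod_cast contDiff_infty.mp hh₂.1 2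
  have hhC : ContDiff ℝ 2 h := by exact_mod_cast contDiff_infty.mp hh.1 2
  set f : E m → ℝ := fun p => h₂ p + g' (lin Rr p) with hf
  have hfC : ContDiff ℝ 2 f := hh₂C.add hgC
  have hfd : Differentiable ℝ f := hfC.differentiable (by norm_num)
  have hfS : (fun p => h₂ (lin Sr p) + g' p) = fun p => f (lin Sr p) := by
    funext p
    simp only [hf, hcancel']
  refine ⟨f, fun t => Sr.mulVec (γ' t), hfC, ?_, ?_, ?_, ?_⟩
  · intro p k l
    have h1 := hh₂.2 p k l
    have h2 := per_lin hgper R p k l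
    simp only [hf]
    rw [h1]
    congr 1
  · have h1 : Small (fun p => g' (lin Rr p)) (ε / 3) := by
      have := small_lin hg' hgsm Rr
      have e : ε / 3 / (1 + ‖lin Rr‖) ^ 2 * (1 + ‖lin Rr‖) ^ 2 = ε / 3 := by
        have : (1 + ‖lin Rr‖) ^ 2 ≠ 0 := by positivity
        field_simp
      rwa [e] at this
    have h2 := small_add (hhC.sub hf₀) (hh₂C.sub hhC) hsm hsm₂
    have h3 := small_add ((hhC.sub hf₀).add (hh₂C.sub hhC)) hgC h2 h1
    have e1 : (fun p => f p - f₀ p) =
        fun p => h p - f₀ p + (h₂ p - h p) + g' (lin Rr p) := by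
      funext p
      simp only [hf]
      ring
    have e2 : ε / 3 + ε / 3 + ε / 3 = ε := by ring
    rw [e1, ← e2]
    exact h3
  · -- the equation
    intro t _
    obtain ⟨s1, s2, s3⟩ := hsol t (mem_univ t)
    have hder : ∀ i, (deriv fun u => (Sr.mulVec (γ' u)) i) =
        fun u => ∑ j, Sr i j * deriv (fun u => γ' u j) u := by
      intro i
      funext u
      have hs1 := (hsol u (mem_univ u)).1
      have : (fun u => (Sr.mulVec (γ' u)) i) = fun u => ∑ j, Sr i j * γ' u j := by
        funext v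
        simp [Matrix.mulVec, dotProduct]
      rw [this]
      have hd : HasDerivAt (fun u => ∑ j, Sr i j * γ' u j)
          (∑ j, Sr i j * deriv (fun u => γ' u j) u) u :=
        HasDerivAt.fun_sum fun j _ => ((hs1 j).hasDerivAt).const_mul (Sr i j)
      exact hd.deriv
    have hder2 : ∀ i, HasDerivAt (deriv fun u => (Sr.mulVec (γ' u)) i)
        (∑ j, Sr i j * deriv (deriv fun u => γ' u j) t) t := by
      intro i
      rw [hder]
      exact HasDerivAt.fun_sum fun j _ => ((s2 j).hasDerivAt).const_mul (Sr i j)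
    refine ⟨fun i => ?_, fun i => (hder2 i).differentiableAt, ?_⟩
    · have : (fun u => (Sr.mulVec (γ' u)) i) = fun u => ∑ j, Sr i j * γ' u j := by
        funext v
        simp [Matrix.mulVec, dotProduct]
      rw [this]
      exact DifferentiableAt.fun_sum fun j _ => (s1 j).const_mul (Sr i j)
    · -- vectors
      set a : Fin (m + 1) → ℝ := fun j => deriv (deriv fun u => γ' u j) t with ha
      set b : Fin (m + 1) → ℝ := fun i => dX i f (lin Sr (γ' t, t)) with hb
      have key : (Sr.transpose * A * Sr).mulVec a = Sr.transpose.mulVec b := by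
        ext j
        have h3 := s3 j
        have h4 : dX j (fun p => h₂ (lin Sr p) + g' p) (γ' t, t) =
            ∑ i, Sr i j * dX i f (lin Sr (γ' t, t)) := by
          rw [hfS, dX_lin hfd]
        rw [h4] at h3
        simpa [Matrix.mulVec, dotProduct, Matrix.transpose_apply] using h3
      have key2 : (A * Sr).mulVec a = b := by
        have := congrArg Rr.transpose.mulVec key
        rw [Matrix.mulVec_mulVec, Matrix.mulVec_mulVec] at this
        have e1 : Rr.transpose * Sr.transpose = 1 := by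
          rw [← Matrix.transpose_mul, hSRr, Matrix.transpose_one]
        have e2 : Rr.transpose * (Sr.transpose * A * Sr) = A * Sr := by
          rw [Matrix.mul_assoc, ← Matrix.mul_assoc, e1, Matrix.one_mul]
        rw [e1, e2, Matrix.one_mulVec] at this
        exact this
      intro i
      have h5 : (fun j => deriv (deriv fun u => (Sr.mulVec (γ' u)) j) t) = Sr.mulVec a := by
        ext j
        rw [(hder2 j).deriv]
        simp [Matrix.mulVec, dotProduct, ha]
      have h6 : ∑ j, A i j * deriv (deriv fun u => (Sr.mulVec (γ' u)) j) t =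
          A.mulVec (Sr.mulVec a) i := by
        rw [← h5]
        simp [Matrix.mulVec, dotProduct]
      have h7 : (lin Sr (γ' t, t)) = (Sr.mulVec (γ' t), t) := lin_apply _ _
      rw [h6, Matrix.mulVec_mulVec, key2, hb, h7]
  · filter_upwards [hgrow] with t ht
    refine ⟨0, ht.trans ?_⟩
    have : (fun s => (Sr.mulVec (γ' s)) 0) = fun s => γ' s 0 := by
      funext s
      have : ∀ j : Fin (m + 1), Sr 0 j = if j = 0 then 1 else 0 := by
        intro j
        by_cases hj : j = 0
        · subst hj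
          simp [hSr, hS, SM]
        · have : ¬ j ≤ 0 := fun h => hj (le_antisymm h (Fin.zero_le j))
          simp [hSr, hS, SM, hj]
      simp [Matrix.mulVec, dotProduct, this]
    rw [this]
    exact le_abs_self _

end Pool.Agent.Helper6K9.E3
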