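import Pool.Agent.Helper6K9.E3.Defs

set_option autoImplicit false

/-!
# Orbits which escape to infinity on flat tori of dimension at least three: the statements of the parts
-/

namespace Pool.Agent.Helper6K9.E3

open Set Filter Topology
open scoped ContDiff
open Pool.Agent.Helper6K9.ES (Q E Per Sm dX dT av an res bmp Small Sol)

/-- [SEP] The passes are separated. Proof: `θ_1' = t^(-11/20)`, `θ_2' = t^(-11/10)`. For
`k ≤ τ^(11/20) / 2` the increment of `θ_1` is between `0.68 k τ^(-11/20)` and `1/2`; for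
`τ^(11/20) / 2 < k ≤ τ` the increment of `θ_2` is at least `0.46 k τ^(-11/10)` and at most
`10 τ^(-1/10) < 1/4`; for `k > τ` it is at least `0.46 τ^(-1/10)`. (Model: ES/Sep.lean.) -/
def S_SEP : Prop := ∀ C : ℝ, ∃ T₀ : ℝ, 1 ≤ T₀ ∧ ∀ τ : ℝ, T₀ ≤ τ → ∀ k : ℕ, 1 ≤ k →
  ((k : ℝ) ≤ τ → ∃ i : ℕ, (i = 1 ∨ i = 2) ∧ ∀ a : ℤ,
    1 / 20 * τ ^ (-11 / 20 : ℝ) + C * k * τ ^ (-7 / 5 : ℝ) ≤ |th0 i (τ + k) - th0 i τ - a|) ∧
  (τ < (k : ℝ) → ∀ a : ℤ,
    1 / 20 * τ ^ (-11 / 20 : ℝ) + C * τ ^ (-2 / 5 : ℝ) ≤ |th0 2 (τ + k) - th0 2 τ - a|)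

/-- [TUB] Bounds for the tube potential. Proof: ES/Tub.lean with the new exponents (weight `11/20` per
derivative; the function `y bmp y` also in the fast direction: order `-4/5 - 7/20 + 11/10 = -1/20`). -/
def S_TUB : Prop := ∀ (m : ℕ) (X : ℝ → Q m) (R : Fin (m + 1) → ℝ → ℝ),
  (∀ i, SyA (-2 / 5) fun t => X t i - th m t i) → (∀ i, SyA (-4 / 5) (R i)) →
  ContDiffOn ℝ 2 (tub X R) {p | 0 < p.2} ∧ ∃ C : ℝ, ∀ p : E m, 1 ≤ p.2 →
    |tub X R p| ≤ C * p.2 ^ (-1 / 20 : ℝ) ∧ ‖fderiv ℝ (tub X R) p‖ ≤ C * p.2 ^ (-1 / 20 : ℝ) ∧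
    ‖fderiv ℝ (fderiv ℝ (tub X R)) p‖ ≤ C * p.2 ^ (-1 / 20 : ℝ)

/-- [TUG] the force of the tube potential on the curve -/
def S_TUG : Prop := ∀ (m : ℕ) (X : ℝ → Q m) (R : Fin (m + 1) → ℝ → ℝ) (t : ℝ), 0 < t →
  DifferentiableAt ℝ (tub X R) (X t, t) → ∀ i, dX i (tub X R) (X t, t) = R i t

/-- [DIS] Different passes of the tube are disjoint. Proof (from SEP): if both cut-offs do not vanish
near the two points then the increments of `X_i` between `τ` and `τ + k` are modulo 1 at most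
`τ^(-11/20) / 64` for `i ≥ 1` and at most `τ^(-7/20) / 64` for `i = 0` (`|sin (π y)| ≥ 2 dist(y, ℤ)`). By
`X - θ = O(t^(-2/5))` the increments of all `θ_j` are modulo 1 at most `C τ^(-7/20)`; `G` is
periodic and Lipschitz, so `G(θ(τ+k), τ+k) - G(θ(τ), τ) = O(τ^(-7/20))`; for `k ≤ τ` the increment of
`X_i - θ_i` is at most `C' τ^(-3/5) + C'' k τ^(-7/5)`, for `k > τ` at most `C τ^(-2/5)`: contradiction to SEP.
(Model: ES/Dis2.lean.) -/
def S_DIS : Prop := ∀ (m : ℕ), 2 ≤ m → ∀ (X : ℝ → Q m) (G : Fin (m + 1) → E m → ℝ),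
  (∀ i, Sm (G i)) → (∀ i, SyA (-2 / 5) fun t => X t i - th m t i) →
  (∀ i, SyA (-3 / 5) fun t => X t i - th m t i - t ^ (-2 / 5 : ℝ) * G i (th m t, t)) →
  ∃ T₁ : ℝ, 1 ≤ T₁ ∧ ∀ p : E m, T₁ ≤ p.2 → ∀ k : ℕ, 1 ≤ k →
    bpr X =ᶠ[𝓝 p] 0 ∨ bpr X =ᶠ[𝓝 (p.1, p.2 + k)] 0

/-- [CMP] functions on a curve are symbols (ES/Cmp.lean with `1/5` in place of `1/4`) -/
def S_CMP : Prop := ∀ (m : ℕ) (Y : ℝ → Q m) (F : E m → ℝ), Crv Y → Sm F →
  SyA 0 (fun t => F (Y t, t)) ∧ ∀ t : ℝ, 0 < t →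
    HasDerivAt (fun t => F (Y t, t))
      ((∑ i, dX i F (Y t, t) * deriv (fun s => Y s i) t) + dT F (Y t, t)) t

/-- [TAY] Taylor expansion (ES/Tay.lean with the new exponents) -/
def S_TAY : Prop := ∀ (m : ℕ) (Y u : ℝ → Q m) (F : E m → ℝ), Crv Y → Sm F →
  (∀ i, SyA (-2 / 5) fun t => u t i) →
  (SyA (-2 / 5) fun t => F (Y t + u t, t) - F (Y t, t)) ∧
  SyA (-4 / 5) fun t => F (Y t + u t, t) - F (Y t, t) - ∑ i, dX i F (Y t, t) * u t i

/-- [ZP] Solution of the linear equation. Proof: for `F` with average zero put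
`J(c, F) = t^(c-1/5) an F (θ, t)`; then `J' = t^c F + t^(c-1/5) an (dT F) + ∑_(i=1,2) t^(c-1/5-11i/20) an (dX i F) +
(c - 1/5) t^(c-6/5) an F` on the curve, all functions again with average zero. So by induction on `N`
there is for all `c`, `F` a finite sum `I` of terms `t^(c') G (θ, t)` with `c' ≤ c - 1/5`, `av G = 0`, such
that `t^c F - I'` is such a sum with `c' ≤ c - N/5`; the leading terms of `I` are
`t^(c-1/5) an F - t^(c-2/5) an (an (dT F))`, the others have `c' ≤ c - 3/5`. Integrate twice. (Needs S_CMP for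
`HasDerivAt` and the class; model: ES/Zp.lean.) -/
def S_ZP : Prop := ∀ (m : ℕ) (c : ℝ) (F : E m → ℝ), Sm F → (∀ q, av F q = 0) →
  ∃ u : ℝ → ℝ, SyA (c - 2 / 5) u ∧
    (SyA (c - 4 / 5) fun t => u t - t ^ (c - 2 / 5) * an (an F) (th m t, t) +
      2 * t ^ (c - 3 / 5) * an (an (an (dT F))) (th m t, t)) ∧
    SyA (c - 4 / 5) fun t => t ^ c * F (th m t, t) - deriv (deriv u) t

/-- [ID] The resonant forces of the second order. Proof: for `X, Y ∈ Gen h` (averages zero) one has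
`av (X * an Y) = - av (an X * Y)`, `av (dX i X * Y) = - av (X * dX i Y)` (the average of the product does not
depend on `x`) and `∫_0^1 av (dT X * Y) dt = - ∫_0^1 av (X * dT Y) dt`, and all these operators
commute. First: `av (dX i F_j * an (an F_k)) = - av (dX i (an F_j) * an F_k)`, the symmetric sum is
`- 1/2 dX i av (∑ B an F_j an F_k) = 0`. Second: the operator `dX i an an an dT` is antisymmetric, so the
average over the time of the symmetric sum is zero, and it is `W''` with `W` periodic. -/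
def S_ID : Prop := ∀ (m : ℕ) (B : Matrix (Fin (m + 1)) (Fin (m + 1)) ℝ) (h : E m → ℝ),
  B.IsSymm → Nice h → ∀ i : Fin (m + 1),
    (∀ p, av (fun x => ∑ j, ∑ k, B j k * (dX i (dX j h) x * an (an (dX k h)) x)) p = 0) ∧
    ∃ W : ℝ → ℝ, ContDiff ℝ ∞ W ∧ (∀ t, W (t + 1) = W t) ∧ ∀ p : E m,
      av (fun x => ∑ j, ∑ k, B j k * (dX i (dX j h) x * an (an (an (dT (dX k h)))) x)) p =
        deriv (deriv W) p.2

/-- [APX] The approximate solution, from CMP, TAY, ZP, ID. Proof: `v_k` from ZP with `c = 0`,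
`F = dX k h`; `u_1 = B v`. Then `∑_j dX i (dX j h) u_1j = t^(-2/5) P_i - 2 t^(-3/5) R_i + O(t^(-4/5))`, `P_i`, `R_i`
the functions of ID. `p_i`: ZP with `c = -2/5`, `F = P_i`; `r_i`: ZP with `c = -3/5`, `F = R_i - W_i''(t)`;
`w = -2 t^(-3/5) B W (t)`; `s_i`: ZP with `c = -3/5`, `F = -2 ∑_(j,l) dX i (dX j h) B_jl W_l (t)`.
`X = θ + u_1 + B (p - 2 r + s) + w`, `G = B an (an (dX k h))`. (Model: ES/Apx.lean.) -/
def S_APX : Prop := ∀ (m : ℕ) (A B : Matrix (Fin (m + 1)) (Fin (m + 1)) ℝ) (h : E m → ℝ),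
  A.IsSymm → A * B = 1 → Nice h →
  ∃ (X : ℝ → Q m) (G : Fin (m + 1) → E m → ℝ), (∀ i, Sm (G i)) ∧
    (∀ i, SyA (-2 / 5) fun t => X t i - th m t i) ∧
    (∀ i, SyA (-3 / 5) fun t => X t i - th m t i - t ^ (-2 / 5 : ℝ) * G i (th m t, t)) ∧
    ∀ i, SyA (-4 / 5) (res A h X i)

/-- [TRI] Trigonometric polynomials are dense. Proof: for each coordinate direction `i` in turn the
convolution in `x_i` with the kernel `cos(π s)^(2N) / ∫ cos^(2N)`, which is a positive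
trigonometric polynomial; it commutes with the derivatives and keeps the property of being a
trigonometric polynomial in the other variables with smooth coefficients. -/
def S_TRI : Prop := ∀ (m : ℕ) (h : E m → ℝ) (ε : ℝ), 0 < ε → Sm h →
  ∃ (N : ℕ) (F : E m → ℝ), TP {k | ∀ i, |k i| ≤ N} F ∧ Small (fun p => F p - h p) ε

/-- [TPN] Proof: all elements of `Gen h` are in `TP (S \ {0})` (`an` divides by `2 π k_0`); averages of
`cos`, `sin` of `2 π k·x` with `k_0 ≠ 0` vanish, and in the product only `k ± l = 0` survives. -/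
def S_TPN : Prop := ∀ (m : ℕ) (S : Set (Fin (m + 1) → ℤ)) (h : E m → ℝ), TP S h →
  (∀ k ∈ S, k ≠ 0 → k 0 ≠ 0) →
  (∀ k ∈ S, ∀ l ∈ S, (k + l ≠ 0 → (k + l) 0 ≠ 0) ∧ (k - l ≠ 0 → (k - l) 0 ≠ 0)) → Nice h

/-- [LIN] Proof: `F (lin SM x)` has the frequencies `SMᵀ k`, and `(SMᵀ k) 0 = ∑ M^i k_i`, which is not zero for
`k ≠ 0`, `|k_i| ≤ 2 N`, `M > 4 N`. -/
def S_LIN : Prop := ∀ (m N : ℕ) (F : E m → ℝ), TP {k | ∀ i, |k i| ≤ N} F →
  ∃ (M : ℕ) (S : Set (Fin (m + 1) → ℤ)),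
    TP S (fun p => F (ES.RedL.lin ((ES.RedL.SM m M).map (Int.cast : ℤ → ℝ)) p)) ∧
    (∀ k ∈ S, k ≠ 0 → k 0 ≠ 0) ∧
    ∀ k ∈ S, ∀ l ∈ S, (k + l ≠ 0 → (k + l) 0 ≠ 0) ∧ (k - l ≠ 0 → (k - l) 0 ≠ 0)

/-- the theorem in adapted coordinates (assembly, helper6) -/
def S_CT : Prop := ∀ (m : ℕ), 2 ≤ m → ∀ (A : Matrix (Fin (m + 1)) (Fin (m + 1)) ℝ)
  (h : E m → ℝ) (ε : ℝ), 0 < ε → A.PosDef → Nice h →
  ∃ (g : E m → ℝ) (γ : ℝ → Q m), ContDiff ℝ 2 g ∧ Per g ∧ Small g ε ∧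
    Sol A (fun p => h p + g p) γ univ ∧
    ∃ c : ℝ, 0 < c ∧ ∀ᶠ t : ℝ in atTop, c * t ^ (1 / 5 : ℝ) ≤ deriv (fun s => γ s 0) t

end Pool.Agent.Helper6K9.E3
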